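import Pool.Agent.H39.EMB.BR

/-!
# Minimal sets in totally disconnected post-critical sets: Julia set = sphere

`MM f`: the statement of `mm_cd`. `mm_conj`: conjugacies. `mm_one`: three fixed points `0`, `1`, `∞`; `mm_sph`: all maps
which are not limits of maps with more attracted critical points.
-/

set_option autoImplicit false

open Filter Topology Polynomial Metric Set MeasureTheory

namespace Pool.Agent.H39.EMB

open Pool.Agent.H44.Fatou (rat rat_continuous rat_coe rat_coe_of_ne pt crit_coe)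
open Pool.Agent.H56.HR (FS EqAt)
open Pool.Agent.H32.BT Pool.Agent.H79.Eul Pool.Agent.H79.Par
open Pool.Agent.H35.EX Pool.Agent.H44.RR Pool.Agent.H44.RC Pool.Agent.H47.RJ
open Pool.Agent.H47.NM Pool.Agent.H47.NN Pool.Agent.H44.ND Pool.Agent.H79.ES Pool.Agent.H44.RG
open Pool.Agent.H44.CP Pool.Agent.H47.PS Pool.Agent.H64.NC Pool.Agent.H57.CF
open Pool.Agent.H61.TT (gg dg ww RatD hasDerivAt_gg)
open Pool.Agent.H64.JS (KJ kj_inv it_mem)
open Pool.Agent.H66.IL (em)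
open Pool.Agent.H66.UX (PCs Pq rz_ex r1 UP CrS pw_crit)
open Pool.Agent.H78.UX (em_hom kj_img)
open Pool.Agent.H3.NC (CT Wk)
open Pool.Agent.H39.HO

variable {d : ℕ}

/-- the statement of `mm_cd` -/
def MM (f : OnePoint ℂ → OnePoint ℂ) : Prop :=
  IsTotallyDisconnected (KJ {c | IsCrit f c} (JS f) f) → (∀ x ∈ KJ {c | IsCrit f c} (JS f) f, f x ≠ x) →
    (∀ δ : ℝ, 0 < δ → ∃ N : ℕ, ∀ n, N ≤ n → ∀ x ∈ KJ {c | IsCrit f c} (JS f) f, 0 < (CT f x n δ).ncard) →
      ∀ c, IsCrit f c → c ∈ JS f → c ∈ Om f c → ∀ M ⊆ Om f c, IsClosed M → M.Nonempty → (∀ x ∈ M, f x ∈ M) → c ∈ M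

theorem om_conj {φ : OnePoint ℂ ≃ₜ OnePoint ℂ} {f g : OnePoint ℂ → OnePoint ℂ} (conj : ∀ x, g (φ x) = φ (f x))
    (x y : OnePoint ℂ) : φ y ∈ Om g (φ x) ↔ y ∈ Om f x := by
  have hit : ∀ n : ℕ, g^[n] (φ x) = φ (f^[n] x) := by
    intro n
    induction n with
    | zero => rfl
    | succ n ih => rw [Function.iterate_succ_apply', Function.iterate_succ_apply', ih, conj]
  constructor
  · intro h U hU
    have h1 : φ '' U ∈ 𝓝 (φ y) := φ.isOpenMap.image_mem_nhds hU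
    refine (h _ h1).mono fun n hn => ?_
    rw [hit] at hn
    obtain ⟨w, hw, he⟩ := hn
    rwa [φ.injective he] at hw
  · intro h U hU
    refine (h (φ ⁻¹' U) (φ.continuous.continuousAt hU)).mono fun n hn => ?_
    rw [hit]
    exact hn

/-- uniform continuity -/
theorem hom_unif (φ : OnePoint ℂ ≃ₜ OnePoint ℂ) {δ : ℝ} (hδ : 0 < δ) :
    ∃ δ' : ℝ, 0 < δ' ∧ ∀ x y, chord x y < δ' → chord (φ x) (φ y) < δ := by
  obtain ⟨δ', hδ', h1⟩ := ch_leb (U := fun x => φ ⁻¹' {w | chord (φ x) w < δ / 2}) (fun x =>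
    φ.continuous.continuousAt ((ch_ball (φ x) (δ / 2)).mem_nhds (by
      show chord (φ x) (φ x) < δ / 2
      rw [chord_zero]
      linarith)))
  refine ⟨δ', hδ', fun x y hxy => ?_⟩
  obtain ⟨q, hq⟩ := h1 x
  have h2 : chord (φ q) (φ x) < δ / 2 := hq (show chord x x < δ' by rw [chord_zero]; exact hδ')
  have h3 : chord (φ q) (φ y) < δ / 2 := hq hxy
  rw [ch_comm] at h2
  linarith [Pool.Agent.H44.RC.ch_tri (φ x) (φ q) (φ y)]

theorem mm_conj {φ : OnePoint ℂ ≃ₜ OnePoint ℂ} {f g : OnePoint ℂ → OnePoint ℂ} (conj : ∀ x, g (φ x) = φ (f x))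
    (h : MM g) : MM f := by
  intro htd hfix hc0 c hc hcJ hcO M hMO hMc hMn hMf
  have hit : ∀ (n : ℕ) (x : OnePoint ℂ), g^[n] (φ x) = φ (f^[n] x) := by
    intro n x
    induction n with
    | zero => rfl
    | succ n ih => rw [Function.iterate_succ_apply', Function.iterate_succ_apply', ih, conj]
  have h1 := h (by
      intro A hA hAp
      have h2 : (φ.symm '' A).Subsingleton := htd (φ.symm '' A) (by
        rintro _ ⟨y, hy, rfl⟩
        have h3 := hA hy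
        rw [← φ.apply_symm_apply y] at h3
        exact (kj_img conj (φ.symm y)).1 h3) (hAp.image _ φ.symm.continuous.continuousOn)
      intro a ha b hb
      exact φ.symm.injective (h2 (mem_image_of_mem _ ha) (mem_image_of_mem _ hb))) (by
      intro y hy
      obtain ⟨x, rfl⟩ := φ.surjective y
      rw [conj]
      exact fun h3 => hfix x ((kj_img conj x).1 hy) (φ.injective h3)) (by
      intro δ hδ
      obtain ⟨δ', hδ', hu⟩ := hom_unif φ hδ
      obtain ⟨N, hN⟩ := hc0 δ' hδ'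
      refine ⟨N, fun n hn y hy => ?_⟩
      obtain ⟨x, rfl⟩ := φ.surjective y
      have h3 := hN n hn x ((kj_img conj x).1 hy)
      obtain ⟨k, hk, q, hq, hqW⟩ := Set.nonempty_of_ncard_ne_zero h3.ne'
      refine (Set.ncard_pos ((finite_lt_nat n).subset fun _ hk => hk.1)).2 ⟨k, hk, φ q, (isCrit_conj φ conj q).2 hq, ?_⟩
      have h4 : φ '' Wk f x n δ' k ⊆ Wk g (φ x) n δ k := by
        have h5 : f^[k] x ∈ {z | chord (f^[n - k] z) (f^[n] x) < δ'} := by
          show chord (f^[n - k] (f^[k] x)) (f^[n] x) < δ'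
          rw [← Function.iterate_add_apply, Nat.sub_add_cancel hk.le, chord_zero]
          exact hδ'
        refine (isPreconnected_connectedComponentIn.image φ φ.continuous.continuousOn).subset_connectedComponentIn
          ⟨f^[k] x, mem_connectedComponentIn h5, (hit k x).symm⟩ ?_
        rintro _ ⟨w, hw, rfl⟩
        have h6 : w ∈ {z | chord (f^[n - k] z) (f^[n] x) < δ'} := connectedComponentIn_subset _ _ hw
        show chord (g^[n - k] (φ w)) (g^[n] (φ x)) < δ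
        rw [hit, hit]
        exact hu _ _ h6
      exact h4 (mem_image_of_mem φ hqW)) (φ c) ((isCrit_conj φ conj c).2 hc) ((js_conj φ (fun y => (conj y).symm) c).2 hcJ)
    ((om_conj conj c c).2 hcO) (φ '' M) (by
      rintro _ ⟨y, hy, rfl⟩
      exact (om_conj conj c y).2 (hMO hy)) (φ.isClosedMap _ hMc) (hMn.image φ) (by
      rintro _ ⟨x, hx, rfl⟩
      rw [conj]
      exact mem_image_of_mem φ (hMf x hx))
  obtain ⟨w, hw, he⟩ := h1
  rwa [φ.injective he] at hw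

/-- critical points in a chart -/
theorem crit_ch {e : ℂ → OnePoint ℂ} (he : IsOpenEmbedding e) {F : OnePoint ℂ → OnePoint ℂ} {g : ℂ → ℂ} {U : Set ℂ}
    (hU : IsOpen U) (hg : DifferentiableOn ℂ g U) (heq : ∀ w ∈ U, F (e w) = e (g w)) {z : ℂ} (hz : z ∈ U)
    (hd : deriv g z = 0) : IsCrit F (e z) := by
  rintro ⟨V, hV, hVi⟩
  obtain ⟨V', hV'V, hV'o, hzV'⟩ := _root_.mem_nhds_iff.1 hV
  obtain ⟨W, hW⟩ : ∃ W, W = e ⁻¹' V' ∩ U := ⟨_, rfl⟩
  have hWo : IsOpen W := hW ▸ (hV'o.preimage he.continuous).inter hU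
  have hzW : z ∈ W := hW ▸ ⟨hzV', hz⟩
  refine inj_der hWo (hg.mono fun w hw => (hW ▸ hw : w ∈ e ⁻¹' V' ∩ U).2) ?_ hzW hd
  intro a ha b hb hab
  rw [hW] at ha hb
  refine he.injective (hVi (hV'V ha.1) (hV'V hb.1) ?_)
  rw [heq a ha.2, heq b hb.2, hab]

/-- three fixed points `0`, `1`, `∞` -/
theorem mm_one {v : E d} (hd : 2 ≤ d) (hcop : IsCoprime (pol v.1) (pol v.2))
    (hdeg : max (pol v.1).natDegree (pol v.2).natDegree = d) (hup : ¬ Up v) (hJ : JS (Rf v) = univ)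
    (h0 : Rf v ((0 : ℂ) : OnePoint ℂ) = ((0 : ℂ) : OnePoint ℂ))
    (h1 : Rf v ((1 : ℂ) : OnePoint ℂ) = ((1 : ℂ) : OnePoint ℂ)) (hi : Rf v OnePoint.infty = OnePoint.infty) :
    MM (Rf v) := by
  intro htd hfix hc0 c hc hcJ hcO M hMO hMc hMn hMf
  by_contra hcM
  have hcont : Continuous (Rf v) := rat_continuous hcop
  have hdv : 1 ≤ max (pol v.1).natDegree (pol v.2).natDegree := by omega
  obtain ⟨K, hK⟩ : ∃ K, K = KJ {c | IsCrit (Rf v) c} (JS (Rf v)) (Rf v) := ⟨_, rfl⟩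
  rw [← hK] at htd hc0 hfix
  have hKf : ∀ x ∈ K, Rf v x ∈ K := hK ▸ kj_inv hcont
  have hKc : IsClosed K := hK ▸ isClosed_closure
  have hcK : ∀ n, 1 ≤ n → (Rf v)^[n] c ∈ K := fun n hn => hK ▸ subset_closure ⟨c, hc, hcJ, n, hn, rfl⟩
  have hMK : M ⊆ K := hMO.trans (om_sub hKc hcK)
  -- the clopen neighbourhood of `M`
  have hfin : {q | IsCrit (Rf v) q}.Finite := crit_finite hcop hdv
  obtain ⟨Fs, hFs⟩ : ∃ Fs : Set (OnePoint ℂ), Fs = insert c ({q | IsCrit (Rf v) q} \ M) := ⟨_, rfl⟩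
  have hFf : Fs.Finite := hFs ▸ (hfin.subset diff_subset).insert c
  have hFM : Disjoint M Fs := by
    rw [Set.disjoint_left]
    intro x hx hxF
    rw [hFs] at hxF
    rcases hxF with h1 | h1
    · exact hcM (h1 ▸ hx)
    · exact h1.2 hx
  obtain ⟨Xs, hXK, hXc, hXZ, hMX, hXF⟩ := clo_nhd hKc htd hMc hMK hFf.isClosed hFM
  have hcX : c ∉ Xs := fun h1 => Set.disjoint_left.1 hXF h1 (by rw [hFs]; exact mem_insert _ _)
  have hcrX : ∀ q ∈ Xs, IsCrit (Rf v) q → q ∈ M := by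
    intro q hq hqc
    by_contra hqM
    exact Set.disjoint_left.1 hXF hq (by rw [hFs]; exact mem_insert_of_mem _ ⟨hqc, hqM⟩)
  -- the chart
  obtain ⟨q, hq0⟩ : ∃ q : ℂ, q = 0 := ⟨_, rfl⟩
  have hqP : (q : OnePoint ℂ) ∉ PCs v := by
    intro h2
    have h3 : ((0 : ℂ) : OnePoint ℂ) ∈ K := by
      rw [hK, ← hq0]
      exact h2
    exact hfix _ h3 h0
  have hq : (Rf v)^[1] (q : OnePoint ℂ) = (q : OnePoint ℂ) := by
    rw [hq0]
    exact h0
  obtain ⟨A, B, hRZ, he⟩ := rz_ex hd hcop hdeg hup hJ h0 h1 hi le_rfl hq hqP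
  obtain ⟨φ, K1, hK1, bil, hφ⟩ := em_hom hd q
  obtain ⟨η, ρ, hS⟩ := r1 hRZ one_pos
  obtain ⟨e, hee⟩ : ∃ e : ℂ → OnePoint ℂ, e = fun w : ℂ => φ.symm (w : OnePoint ℂ) := ⟨_, rfl⟩
  have hemb : IsOpenEmbedding e := hee ▸ φ.symm.isOpenEmbedding.comp OnePoint.isOpenEmbedding_coe
  have hea : ∀ w : ℂ, e w = em q w := fun w => by rw [hee]; exact hφ w
  have hφe : ∀ w : ℂ, φ (e w) = (w : OnePoint ℂ) := fun w => by rw [hee]; exact φ.apply_symm_apply _
  have hec : Continuous e := hemb.continuous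
  have hei : Function.Injective e := hemb.injective
  have hemq : ∀ w : ℂ, em q w ≠ (q : OnePoint ℂ) := by
    intro w h3
    unfold Pool.Agent.H66.IL.em at h3
    by_cases hw : w = 0
    · rw [if_pos hw] at h3
      exact OnePoint.infty_ne_coe _ h3
    · rw [if_neg hw] at h3
      have h4 := OnePoint.coe_injective h3
      rw [add_eq_left, one_div, inv_eq_zero] at h4
      exact hw h4
  have hφq : φ (q : OnePoint ℂ) = OnePoint.infty := by
    by_contra h3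
    obtain ⟨w, hw⟩ := OnePoint.ne_infty_iff_exists.1 h3
    refine hemq w ?_
    rw [← hea, hee]
    show φ.symm (w : OnePoint ℂ) = (q : OnePoint ℂ)
    rw [hw, φ.symm_apply_apply]
  have heq : ∀ w ∈ UP B, Rf v (e w) = e (gg A B w) := by
    intro w hw
    rw [hea, hea]
    exact he w hw
  have hPQ : ∀ z : ℂ, z ∈ Pq v q ↔ e z ∈ K := by
    intro z
    rw [hea, hK]
    exact Iff.rfl
  have hKJ : ∀ x ∈ K, x ∈ range e := by
    intro x hx
    have h2 : φ x ≠ OnePoint.infty := by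
      intro h3
      rw [← hφq] at h3
      rw [φ.injective h3, hK] at hx
      exact hqP hx
    obtain ⟨z, hz⟩ := OnePoint.ne_infty_iff_exists.1 h2
    refine ⟨z, ?_⟩
    apply φ.injective
    rw [hφe, hz]
  obtain ⟨P, hP⟩ : ∃ P, P = Pq v q := ⟨_, rfl⟩
  rw [← hP] at hPQ hRZ hS
  have hPc : IsCompact P := hRZ.Pc
  have hPU : P ⊆ UP B := fun z hz => hRZ.Pb z hz
  have hPe : P = e ⁻¹' K := by
    ext z
    exact hPQ z
  -- the planar sets
  obtain ⟨X, hX⟩ : ∃ X : Set ℂ, X = e ⁻¹' Xs := ⟨_, rfl⟩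
  obtain ⟨M', hM'⟩ : ∃ M' : Set ℂ, M' = e ⁻¹' M := ⟨_, rfl⟩
  have hXP : X ⊆ P := by
    rw [hX, hPe]
    exact preimage_mono hXK
  have hXcl : IsClosed X := hX ▸ hXc.preimage hec
  have hM'cl : IsClosed M' := hM' ▸ hMc.preimage hec
  have hZeq : P \ X = e ⁻¹' (K \ Xs) := by rw [hPe, hX, preimage_diff]
  have hZc : IsCompact (P \ X) := by
    refine hPc.of_isClosed_subset ?_ diff_subset
    rw [hZeq]
    exact hXZ.preimage hec
  have hXcpt : IsCompact X := hPc.of_isClosed_subset hXcl hXP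
  have hop : IsOpenMap (rat A B) := rat_open hRZ.rt.cop (by rw [hRZ.rt.deg]; have := hRZ.rt.hd; omega)
  have hom : ∀ O ⊆ UP B, IsOpen O → IsOpen (gg A B '' O) := by
    intro O hO hOo
    have h1 : IsOpen (rat A B '' (((↑) : ℂ → OnePoint ℂ) '' O)) := hop _ (OnePoint.isOpenEmbedding_coe.isOpenMap O hOo)
    have h2 : gg A B '' O = ((↑) : ℂ → OnePoint ℂ) ⁻¹' (rat A B '' (((↑) : ℂ → OnePoint ℂ) '' O)) := by
      ext y
      constructor
      · rintro ⟨w, hw, rfl⟩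
        exact ⟨w, ⟨w, hw, rfl⟩, rat_coe_of_ne (hO hw)⟩
      · rintro ⟨_, ⟨w, hw, rfl⟩, hwy⟩
        refine ⟨w, hw, OnePoint.coe_injective ?_⟩
        rw [← hwy]
        exact (rat_coe_of_ne (hO hw)).symm
    rw [h2]
    exact h1.preimage OnePoint.continuous_coe
  have hPf : ∀ z ∈ P, gg A B z ∈ P := by
    intro z hz
    rw [hPQ, ← heq z (hPU hz)]
    exact hKf _ ((hPQ z).1 hz)
  have hM'f : ∀ z ∈ M', gg A B z ∈ M' := by
    intro z hz
    have hzP : z ∈ P := by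
      rw [hPQ]
      rw [hM'] at hz
      exact hMK hz
    rw [hM'] at hz ⊢
    show e (gg A B z) ∈ M
    rw [← heq z (hPU hzP)]
    exact hMf _ hz
  have htdP : ∀ z ∈ P, connectedComponentIn P z = {z} := by
    intro z hz
    refine Subset.antisymm ?_ (singleton_subset_iff.2 (mem_connectedComponentIn hz))
    intro y hy
    have h1 := htd (e '' connectedComponentIn P z) (by
      rintro _ ⟨w, hw, rfl⟩
      exact (hPQ w).1 (connectedComponentIn_subset _ _ hw))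
      (isPreconnected_connectedComponentIn.image e hec.continuousOn) (mem_image_of_mem e hy)
      (mem_image_of_mem e (mem_connectedComponentIn hz))
    exact hei h1
  have hcr : ∀ z ∈ X, deriv (gg A B) z ≠ 0 ∨ gg A B z ∈ M' := by
    intro z hz
    by_cases hd0 : deriv (gg A B) z = 0
    · right
      have h2 : IsCrit (Rf v) (e z) := crit_ch hemb hS.Uo hS.fd heq (hPU (hXP hz)) hd0
      apply hM'f
      rw [hX] at hz
      rw [hM']
      exact hcrX _ hz h2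
    · exact Or.inl hd0
  have hMX' : M' ⊆ X := by
    rw [hM', hX]
    exact preimage_mono hMX
  obtain ⟨N, G, ρ', hEW, hNU⟩ := em_ss hS hom htdP hXcpt hZc hXP hM'cl hMX' hM'f hcr
  obtain ⟨s, Vf, hs, k1, k2, k3, k4, k5⟩ := chain hEW
  have hXN : X ⊆ N := fun z hz => k1 z hz (mem_ball_self hs)
  obtain ⟨r₀, i₂, hr₀, hct⟩ := em_sph hcont (rat_fiber_finite hcop hdv) hemb hPc hXcpt hXP hEW.No hXN
    (hEW.fd.continuousOn) (fun w hw => heq w (hNU hw)) hs k1 k2 k3 k4 k5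
  obtain ⟨N0, hN0⟩ := hc0 r₀ hr₀
  -- the orbit
  have hit : ∀ n : ℕ, ∀ z ∈ P, (Rf v)^[n] (e z) = e ((gg A B)^[n] z) ∧ (gg A B)^[n] z ∈ P := by
    intro n
    induction n with
    | zero => exact fun z hz => ⟨rfl, hz⟩
    | succ n ih =>
      intro z hz
      rw [Function.iterate_succ_apply, Function.iterate_succ_apply, heq z (hPU hz)]
      exact ih _ (hPf z hz)
  obtain ⟨m, hm⟩ : ∃ m, m = N0 + i₂ := ⟨_, rfl⟩
  obtain ⟨O, hO⟩ : ∃ O : Set (OnePoint ℂ), O = ⋂ j ∈ Finset.range (m + 1), (Rf v)^[j] ⁻¹' (K \ Xs)ᶜ := ⟨_, rfl⟩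
  have hOo : IsOpen O := hO ▸ isOpen_biInter_finset fun j _ => hXZ.isOpen_compl.preimage (hcont.iterate j)
  have hMO2 : M ⊆ O := by
    intro x hx
    rw [hO]
    refine mem_iInter₂.2 fun j _ h1 => h1.2 (hMX (it_mem hMf hx j))
  obtain ⟨p, hp⟩ := hMn
  obtain ⟨n1, hn1, hn1'⟩ := ((hMO hp O (hOo.mem_nhds (hMO2 hp))).and_eventually (eventually_ge_atTop 1)).exists
  obtain ⟨y, hy⟩ : ∃ y, y = (Rf v)^[n1] c := ⟨_, rfl⟩
  rw [← hy] at hn1
  have hyK : y ∈ K := hy ▸ hcK n1 hn1'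
  have hyit : ∀ j ≤ m, (Rf v)^[j] y ∈ Xs := by
    intro j hj
    rw [hO] at hn1
    have h1 := mem_iInter₂.1 hn1 j (Finset.mem_range.2 (by omega))
    by_contra h2
    exact h1 ⟨it_mem hKf hyK j, h2⟩
  have hex : ∃ t : ℕ, (Rf v)^[t] y ∉ Xs := by
    obtain ⟨n2, hn2, hn2'⟩ := ((hcO Xsᶜ (hXc.isOpen_compl.mem_nhds hcX)).and_eventually (eventually_ge_atTop n1)).exists
    refine ⟨n2 - n1, ?_⟩
    rw [hy, ← Function.iterate_add_apply, Nat.sub_add_cancel hn2']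
    exact hn2
  classical
  obtain ⟨t, ht, htmin⟩ : ∃ t : ℕ, (Rf v)^[t] y ∉ Xs ∧ ∀ j < t, (Rf v)^[j] y ∈ Xs :=
    ⟨Nat.find hex, Nat.find_spec hex, fun j hj => not_not.1 (Nat.find_min hex hj)⟩
  have htm : m < t := by
    by_contra h1
    exact ht (hyit t (not_lt.1 h1))
  obtain ⟨z, rfl⟩ := hKJ y hyK
  have hzP : z ∈ P := (hPQ z).2 hyK
  have hDm : z ∈ Dm (gg A B) P X t := by
    refine ⟨fun j hj => ?_, (hit t z hzP).2, ?_⟩
    · rw [hX]
      show e _ ∈ Xs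
      rw [← (hit j z hzP).1]
      exact htmin j hj
    · rw [hX]
      show e _ ∉ Xs
      rw [← (hit t z hzP).1]
      exact ht
  have h1 := hct (t - i₂) z (by rw [Nat.sub_add_cancel (by omega)]; exact hDm)
  have h2 := hN0 (t - i₂) (by omega) (e z) hyK
  rw [h1, ncard_empty] at h2
  exact absurd h2 (lt_irrefl 0)

/-- Julia set = sphere -/
theorem mm_sph {v : E d} (hd : 2 ≤ d) (hcop : IsCoprime (pol v.1) (pol v.2))
    (hdeg : max (pol v.1).natDegree (pol v.2).natDegree = d) (hup : ¬ Up v) (hJ : JS (Rf v) = univ) : MM (Rf v) := by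
  obtain ⟨q1, q2, q3, n12, n13, n23, e1, e2, e3⟩ := three_fix hd hcop hdeg hup hJ
  obtain ⟨L, G, φ, K, hch, -, f0, f1, fi⟩ := ch_three (d := d) hd n12 n13 n23
  obtain ⟨hcop1, hdeg1, hφ⟩ := hch.conj v hcop hdeg
  have hup1 : ¬ Up (L v) := fun h =>
    hup (up_chart hd hch.cG hch.invL hch.invR (fun v h3 h4 => (hch.conj v h3 h4).2.2) hcop hdeg h)
  have hJS1 : JS (Rf (L v)) = univ := by
    rw [eq_univ_iff_forall]
    intro y
    obtain ⟨x, rfl⟩ := φ.surjective y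
    exact (js_conj φ (fun y => (hφ y).symm) x).2 (hJ ▸ mem_univ x)
  have h0 : Rf (L v) ((0 : ℂ) : OnePoint ℂ) = ((0 : ℂ) : OnePoint ℂ) := by rw [← f0, hφ, e1]
  have h1 : Rf (L v) ((1 : ℂ) : OnePoint ℂ) = ((1 : ℂ) : OnePoint ℂ) := by rw [← f1, hφ, e2]
  have hi : Rf (L v) OnePoint.infty = OnePoint.infty := by rw [← fi, hφ, e3]
  exact mm_conj hφ (mm_one hd hcop1 hdeg1 hup1 hJS1 h0 h1 hi)

end Pool.Agent.H39.EMB
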