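import Pool.Agent.H39.EMB.Dec
import Pool.Agent.H39.EMB.BS
import Pool.Agent.H47.EMB.Inp
import Pool.Agent.H47.PS.RED

/-!
# Totally disconnected post-critical sets: decomposition into minimal sets

`dec_all`, `dec_full`: `DEC` for the maps of the families `R(d, m)` which are not limits of maps with more attracted
critical points, if the post-critical set is totally disconnected. `kk_nper`: it contains no periodic points then.
-/

set_option autoImplicit false

open Filter Topology Polynomial Metric Set MeasureTheory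

namespace Pool.Agent.H39.EMB

open Pool.Agent.H44.Fatou (rat rat_continuous rat_coe rat_coe_of_ne pt crit_coe Wr)
open Pool.Agent.H32.BT Pool.Agent.H79.Par
open Pool.Agent.H35.EX Pool.Agent.H44.RC Pool.Agent.H56.HR Pool.Agent.H47.RJ Pool.Agent.H64.NC
open Pool.Agent.H47.NM Pool.Agent.H47.NN Pool.Agent.H57.CF Pool.Agent.H79.Eul Pool.Agent.H79.ES Pool.Agent.H44.ND
open Pool.Agent.H64.JS (KJ kj_inv it_mem)
open Pool.Agent.H3.NC (CT)
open Pool.Agent.H27.BR (CD)

variable {d : ℕ}

theorem own_all {m : ℕ} (hd : 2 ≤ d) (hm : m ≤ d) {x : Em d m} (hcop : IsCoprime (pol x.1) (pol x.2))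
    (hdeg : max (pol x.1).natDegree (pol x.2).natDegree = d) (hup : ¬ UpF d m x)
    (htd : IsTotallyDisconnected (KJ {c | IsCrit (Rf (ex d m x)) c} (JS (Rf (ex d m x))) (Rf (ex d m x)))) :
    ∀ c, IsCrit (Rf (ex d m x)) c → c ∈ JS (Rf (ex d m x)) → c ∈ Om (Rf (ex d m x)) c := by
  intro c hc hcJ U hU
  exact mapClusterPt_iff_frequently.1 (Pool.Agent.H47.EMB.inp_e hd hm hcop hdeg hup htd hc hcJ).2 U hU

theorem dec_all {m : ℕ} (hd : 2 ≤ d) (hm : m ≤ d) {x : Em d m} (hcop : IsCoprime (pol x.1) (pol x.2))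
    (hdeg : max (pol x.1).natDegree (pol x.2).natDegree = d) (hup : ¬ UpF d m x)
    (hJ : JS (Rf (ex d m x)) ≠ univ)
    (htd : IsTotallyDisconnected (KJ {c | IsCrit (Rf (ex d m x)) c} (JS (Rf (ex d m x))) (Rf (ex d m x)))) :
    DEC (Rf (ex d m x)) := by
  obtain ⟨hf, hfin, -⟩ := Pool.Agent.H47.EMB.inp_k (m := m) hd hcop hdeg
  have hown := own_all hd hm hcop hdeg hup htd
  refine dec_of hf hfin hown fun c hc hcJ M hMO hMc hMn hMf => ?_
  have hF : (FS (Rf (ex d m x))).Nonempty := by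
    by_contra h1
    refine hJ ?_
    show (FS (Rf (ex d m x)))ᶜ = univ
    rw [Set.not_nonempty_iff_eq_empty.1 h1, Set.compl_empty]
  obtain ⟨D, u, φ, K, T, h, -⟩ := Pool.Agent.H31.UDC.cdx hd hm hcop hdeg hup hF
  refine mm_cd h (ex_cop hcop) (by rw [ex_deg hdeg]; omega) htd ?_ hc hcJ (hown c hc hcJ) hMc hMn hMf hMO
  intro δ hδ
  exact Pool.Agent.H47.EMB.inp_c hd hm hcop hdeg hup htd hδ 0

/-- critical points in the Julia set are not periodic: in a chart -/
theorem cd_nper {v u : E d} {φ : OnePoint ℂ ≃ₜ OnePoint ℂ} {K : ℝ} {T : Set (OnePoint ℂ)} {D : ℕ}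
    (h : CD v u φ K T D) {c : OnePoint ℂ} (hc : IsCrit (Rf v) c) (hcJ : c ∈ JS (Rf v)) {N : ℕ} (hN : 1 ≤ N) :
    (Rf v)^[N] c ≠ c := by
  intro hper
  have hJ : φ c ∈ JS (Rf u) := (js_conj φ (fun y => (h.conj y).symm) c).2 hcJ
  have hcr : IsCrit (Rf u) (φ c) := (isCrit_conj φ h.conj c).2 hc
  have hit : ∀ n : ℕ, (Rf u)^[n] (φ c) = φ ((Rf v)^[n] c) := by
    intro n
    induction n with
    | zero => rfl
    | succ n ih => rw [Function.iterate_succ_apply', Function.iterate_succ_apply', ih, h.conj]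
  have hne : ∀ i : ℕ, (Rf u)^[i] (φ c) ≠ OnePoint.infty := by
    intro i h1
    have h2 := h.ga.js i hJ
    rw [h1] at h2
    exact h2 h.ga.fi
  choose x hx using fun i => OnePoint.ne_infty_iff_exists.1 (hne i)
  have hJx : ∀ i, x i ∈ JC u := by
    intro i
    have h2 := h.ga.js i hJ
    rw [← hx i] at h2
    exact h2
  have hbne : ∀ i, (pol u.2).eval (x i) ≠ 0 := fun i => h.ga.bne (hJx i)
  have hst : ∀ i, rat (pol u.1) (pol u.2) (x i : OnePoint ℂ) = (x (i + 1) : OnePoint ℂ) := by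
    intro i
    rw [hx, hx, Function.iterate_succ_apply']
    rfl
  have hw : (Wr (pol u.1) (pol u.2)).eval (x 0) = 0 := by
    have h1 : IsCrit (Rf u) (x 0 : OnePoint ℂ) := by
      rw [hx 0]
      exact hcr
    exact crit_coe h1
  have hcyc : Cyc (pol u.1) (pol u.2) N x
      (∏ i ∈ Finset.range N, (Wr (pol u.1) (pol u.2)).eval (x i) / ((pol u.2).eval (x i)) ^ 2) := by
    refine ⟨fun i _ => hbne i, fun i _ => ?_, ?_, rfl⟩
    · have h1 := hst i
      rw [rat_coe_of_ne (hbne i)] at h1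
      exact OnePoint.coe_injective h1
    · apply OnePoint.coe_injective
      rw [hx, hx, hit, hper]
      rfl
  have hm0 : (∏ i ∈ Finset.range N, (Wr (pol u.1) (pol u.2)).eval (x i) / ((pol u.2).eval (x i)) ^ 2) = 0 := by
    refine Finset.prod_eq_zero (Finset.mem_range.2 (by omega : 0 < N)) ?_
    rw [hw, zero_div]
  rw [hm0] at hcyc
  have h1 := cyc_sink h.ga.cop (by omega : 0 < N) hcyc (by rw [norm_zero]; exact one_pos)
  have h2 := h.ga.af _ (att_sink h1)
  rw [hx 0] at h2
  exact hJ h2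

/-- critical points in the Julia set are not periodic -/
theorem crit_nper {m : ℕ} (hd : 2 ≤ d) (hm : m ≤ d) {x : Em d m} (hcop : IsCoprime (pol x.1) (pol x.2))
    (hdeg : max (pol x.1).natDegree (pol x.2).natDegree = d) (hup : ¬ UpF d m x) {c : OnePoint ℂ}
    (hc : IsCrit (Rf (ex d m x)) c) (hcJ : c ∈ JS (Rf (ex d m x))) {N : ℕ} (hN : 1 ≤ N) :
    (Rf (ex d m x))^[N] c ≠ c := by
  by_cases hJ : JS (Rf (ex d m x)) = univ
  · rcases Nat.lt_or_ge m 2 with h2 | h2
    · have hup1 : ¬ Up (ex d m x) := by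
        rcases Nat.lt_or_ge m 1 with h1 | h1
        · obtain rfl : m = 0 := by omega
          exact fun h => hup (up_zero h)
        · obtain rfl : m = 1 := by omega
          exact fun h => hup (Pool.Agent.H64.PF.up_one hd hcop hdeg h)
      exact (Pool.Agent.H47.PS.not_pre hd (ex_cop hcop) (ex_deg hdeg) hup1 hc hcJ 0 N (by omega)).symm
    · exfalso
      obtain ⟨D, u, φ, K, T, h, -⟩ := Pool.Agent.H31.UDC.cdx_upF hd h2 hm hcop hdeg hup
      obtain ⟨y, hy⟩ := φ.surjective OnePoint.infty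
      have h3 : φ y ∈ JS (Rf u) := (js_conj φ (fun y => (h.conj y).symm) y).2 (hJ ▸ mem_univ y)
      rw [hy] at h3
      exact h3 h.ga.fi
  · have hF : (FS (Rf (ex d m x))).Nonempty := by
      by_contra h1
      refine hJ ?_
      show (FS (Rf (ex d m x)))ᶜ = univ
      rw [Set.not_nonempty_iff_eq_empty.1 h1, Set.compl_empty]
    obtain ⟨D, u, φ, K, T, h, -⟩ := Pool.Agent.H31.UDC.cdx hd hm hcop hdeg hup hF
    exact cd_nper h hc hcJ hN

/-- the complement of a point of the sphere is connected -/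
theorem compl_pt (y : OnePoint ℂ) : IsPreconnected ({y}ᶜ : Set (OnePoint ℂ)) := by
  have h1 : ({y}ᶜ : Set (OnePoint ℂ)) = {z | 0 < chord y z} := by
    ext z
    rw [mem_compl_iff, mem_singleton_iff]
    constructor
    · intro h
      exact chord_pos fun h2 => h h2.symm
    · intro h h2
      have h3 : 0 < chord y z := h
      rw [h2, Pool.Agent.H44.RR.chord_zero] at h3
      exact lt_irrefl 0 h3
  rw [h1]
  exact Pool.Agent.H44.RC.ball_ext y (by norm_num)

/-- all Julia sets -/
theorem dec_full {m : ℕ} (hd : 2 ≤ d) (hm : m ≤ d) {x : Em d m} (hcop : IsCoprime (pol x.1) (pol x.2))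
    (hdeg : max (pol x.1).natDegree (pol x.2).natDegree = d) (hup : ¬ UpF d m x)
    (htd : IsTotallyDisconnected (KJ {c | IsCrit (Rf (ex d m x)) c} (JS (Rf (ex d m x))) (Rf (ex d m x)))) :
    DEC (Rf (ex d m x)) := by
  by_cases hJ : JS (Rf (ex d m x)) = univ
  · rcases Nat.lt_or_ge m 2 with h2 | h2
    · have hup1 : ¬ Up (ex d m x) := by
        rcases Nat.lt_or_ge m 1 with h1 | h1
        · obtain rfl : m = 0 := by omega
          exact fun h => hup (up_zero h)
        · obtain rfl : m = 1 := by omega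
          exact fun h => hup (Pool.Agent.H64.PF.up_one hd hcop hdeg h)
      obtain ⟨hf, hfin, hKc, -⟩ := Pool.Agent.H47.EMB.inp_k (m := m) hd hcop hdeg
      have hown := own_all hd hm hcop hdeg hup htd
      have hMM := mm_sph hd (ex_cop hcop) (ex_deg hdeg) hup1 hJ
      refine dec_of hf hfin hown fun c hc hcJ => hMM htd ?_
        (fun δ hδ => Pool.Agent.H47.EMB.inp_c hd hm hcop hdeg hup htd hδ 0) c hc hcJ (hown c hc hcJ)
      intro y hy hfy
      obtain ⟨y', hy', h3⟩ := Pool.Agent.H39.HO.nfp_all hd hm hcop hdeg hup {y} (singleton_subset_iff.2 hy)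
        isClosed_singleton (singleton_nonempty y) (by
          intro z hz
          rw [mem_singleton_iff] at hz ⊢
          rw [hz]
          exact hfy)
      rw [mem_singleton_iff] at hy'
      subst hy'
      have h4 : connectedComponentIn (KJ {c | IsCrit (Rf (ex d m x)) c} (JS (Rf (ex d m x))) (Rf (ex d m x))) y' = {y'} :=
        Subset.antisymm (fun z hz => htd _ (connectedComponentIn_subset _ _) isPreconnected_connectedComponentIn hz
          (mem_connectedComponentIn hy)) (singleton_subset_iff.2 (mem_connectedComponentIn hy))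
      rw [h4] at h3
      rcases h3 with h3 | ⟨c, hc, hcr⟩
      · exact h3 (compl_pt y')
      · rw [mem_singleton_iff] at hc
        subst hc
        exact crit_nper hd hm hcop hdeg hup hcr (hJ ▸ mem_univ _) le_rfl hfy
    · exfalso
      obtain ⟨D, u, φ, K, T, h, -⟩ := Pool.Agent.H31.UDC.cdx_upF hd h2 hm hcop hdeg hup
      obtain ⟨y, hy⟩ := φ.surjective OnePoint.infty
      have h3 : φ y ∈ JS (Rf u) := (js_conj φ (fun y => (h.conj y).symm) y).2 (hJ ▸ mem_univ y)
      rw [hy] at h3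
      exact h3 h.ga.fi
  · exact dec_all hd hm hcop hdeg hup hJ htd

/-- a totally disconnected post-critical set contains no periodic points -/
theorem kk_nper {m : ℕ} (hd : 2 ≤ d) (hm : m ≤ d) {x : Em d m} (hcop : IsCoprime (pol x.1) (pol x.2))
    (hdeg : max (pol x.1).natDegree (pol x.2).natDegree = d) (hup : ¬ UpF d m x)
    (htd : IsTotallyDisconnected (KJ {c | IsCrit (Rf (ex d m x)) c} (JS (Rf (ex d m x))) (Rf (ex d m x))))
    {y : OnePoint ℂ} (hy : y ∈ KJ {c | IsCrit (Rf (ex d m x)) c} (JS (Rf (ex d m x))) (Rf (ex d m x))) {N : ℕ}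
    (hN : 1 ≤ N) : (Rf (ex d m x))^[N] y ≠ y := by
  intro hper
  have hD := dec_full hd hm hcop hdeg hup htd
  rw [hD.dec] at hy
  obtain ⟨c, ⟨hc, hcJ⟩, hyc⟩ := mem_iUnion₂.1 hy
  have hM := hD.min c hc hcJ
  obtain ⟨L, hL⟩ : ∃ L : Set (OnePoint ℂ), L = (fun i => (Rf (ex d m x))^[i] y) '' {i | i < N} := ⟨_, rfl⟩
  have hLc : IsClosed L := by
    rw [hL]
    exact ((finite_lt_nat N).image _).isClosed
  have h1 := hM.min L (by
      rw [hL]
      rintro _ ⟨i, -, rfl⟩
      exact it_mem hM.inv hyc i) hLc ⟨y, by rw [hL]; exact ⟨0, hN, rfl⟩⟩ (by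
      rw [hL]
      rintro _ ⟨i, hi, rfl⟩
      have hi' : i < N := hi
      rcases Nat.lt_or_ge (i + 1) N with h2 | h2
      · exact ⟨i + 1, h2, Function.iterate_succ_apply' _ _ _⟩
      · obtain rfl : N = i + 1 := by omega
        refine ⟨0, hN, ?_⟩
        rw [Function.iterate_succ_apply'] at hper
        exact hper.symm)
  have h2 := hD.own c hc hcJ
  rw [← h1, hL] at h2
  obtain ⟨i, hi, hic⟩ := h2
  refine crit_nper hd hm hcop hdeg hup hc hcJ hN ?_
  have hic' : (Rf (ex d m x))^[i] y = c := hic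
  rw [← hic', ← Function.iterate_add_apply, Nat.add_comm, Function.iterate_add_apply, hper]

end Pool.Agent.H39.EMB
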