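import Pool.Agent.H39.EMB.CH
import Pool.Agent.H44.RC.NET
import Pool.Agent.H3.NC.Sph

/-!
# Pull backs along orbits which leave a neighbourhood of an invariant set: on the sphere

`em_sph`: in the setting of `chain`, pull backs of small chordal discs along orbits which stay in `X` and leave it
contain no critical points, except for the last `i₂` steps.
-/

set_option autoImplicit false

open Filter Topology Metric Set MeasureTheory

namespace Pool.Agent.H39.EMB

open Pool.Agent.H56.TH Pool.Agent.H39.HO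
open Pool.Agent.H35.EX (chord)
open Pool.Agent.H32.BT (IsCrit)
open Pool.Agent.H44.RR (chord_zero)
open Pool.Agent.H44.RC (ch_ball ch_tri ch_comm ch_nhds pre_small Sm)
open Pool.Agent.H3.NC (Wk CT)

/-- uniform constants on compact sets -/
theorem unif {A : Set ℂ} (hA : IsCompact A) {p : ℂ → ℝ → Prop} (hmono : ∀ z r r', 0 < r' → r' ≤ r → p z r → p z r')
    (h : ∀ z ∈ A, ∃ r : ℝ, 0 < r ∧ ∀ᶠ z' in 𝓝 z, p z' r) : ∃ r : ℝ, 0 < r ∧ ∀ z ∈ A, p z r := by
  refine hA.induction_on (p := fun S => ∃ r : ℝ, 0 < r ∧ ∀ z ∈ S, p z r) ⟨1, one_pos, fun z hz => absurd hz (by simp)⟩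
    ?_ ?_ ?_
  · rintro S T hST ⟨r, hr, h1⟩
    exact ⟨r, hr, fun z hz => h1 z (hST hz)⟩
  · rintro S T ⟨r, hr, h1⟩ ⟨r', hr', h2⟩
    refine ⟨min r r', lt_min hr hr', ?_⟩
    rintro z (hz | hz)
    · exact hmono z r _ (lt_min hr hr') (min_le_left _ _) (h1 z hz)
    · exact hmono z r' _ (lt_min hr hr') (min_le_right _ _) (h2 z hz)
  · intro z hz
    obtain ⟨r, hr, h1⟩ := h z hz
    exact ⟨{z' | p z' r}, mem_nhdsWithin_of_mem_nhds h1, r, hr, fun z' hz' => hz'⟩

theorem ch_out {e : ℂ → OnePoint ℂ} (he : IsOpenEmbedding e) {P : Set ℂ} (hP : IsCompact P) {κ : ℝ} (hκ : 0 < κ) :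
    ∃ r : ℝ, 0 < r ∧ ∀ z ∈ P, {y | chord (e z) y < r} ⊆ e '' ball z κ := by
  refine unif hP (p := fun z r => {y | chord (e z) y < r} ⊆ e '' ball z κ)
    (fun z r r' _ h1 h2 y hy => h2 (lt_of_lt_of_le hy h1)) ?_
  intro z _
  have h1 : e '' ball z (κ / 2) ∈ 𝓝 (e z) :=
    (he.isOpenMap _ isOpen_ball).mem_nhds (mem_image_of_mem e (mem_ball_self (by linarith)))
  obtain ⟨t, ht, h2⟩ := ch_nhds h1
  have h3 : {y | chord (e z) y < t / 2} ∈ 𝓝 (e z) := (ch_ball (e z) (t / 2)).mem_nhds (by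
    show chord (e z) (e z) < t / 2
    rw [chord_zero]
    linarith)
  refine ⟨t / 2, by linarith, ?_⟩
  filter_upwards [he.continuous.continuousAt h3, ball_mem_nhds z (by linarith : 0 < κ / 2)] with z' h4 h5
  intro y hy
  have h6 : chord (e z) (e z') < t / 2 := h4
  have h7 : chord (e z') y < t / 2 := hy
  obtain ⟨w, hw, rfl⟩ := h2 (show chord (e z) y < t by linarith [ch_tri (e z) (e z') y])
  refine ⟨w, ?_, rfl⟩
  rw [mem_ball] at hw h5 ⊢
  rw [dist_comm] at h5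
  linarith [dist_triangle w z z']

theorem ch_in {e : ℂ → OnePoint ℂ} (he : IsOpenEmbedding e) {P : Set ℂ} (hP : IsCompact P) {κ : ℝ} (hκ : 0 < κ) :
    ∃ r : ℝ, 0 < r ∧ ∀ z ∈ P, ∀ w ∈ ball z r, chord (e z) (e w) < κ := by
  refine unif hP (p := fun z r => ∀ w ∈ ball z r, chord (e z) (e w) < κ)
    (fun z r r' _ h1 h2 w hw => h2 w (ball_subset_ball h1 hw)) ?_
  intro z _
  have h3 : {y | chord (e z) y < κ / 2} ∈ 𝓝 (e z) := (ch_ball (e z) (κ / 2)).mem_nhds (by
    show chord (e z) (e z) < κ / 2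
    rw [chord_zero]
    linarith)
  obtain ⟨t, ht, h4⟩ := Metric.mem_nhds_iff.1 (he.continuous.continuousAt h3)
  refine ⟨t / 2, by linarith, ?_⟩
  filter_upwards [ball_mem_nhds z (by linarith : 0 < t / 2)] with z' h5
  intro w hw
  have h6 : chord (e z) (e w) < κ / 2 := h4 (by
    rw [mem_ball] at hw h5 ⊢
    linarith [dist_triangle w z' z])
  have h7 : chord (e z) (e z') < κ / 2 := h4 (ball_subset_ball (by linarith) h5)
  rw [ch_comm] at h7
  linarith [ch_tri (e z') (e z) (e w)]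

theorem f_in {f : ℂ → ℂ} {N X : Set ℂ} (hN : IsOpen N) (hf : ContinuousOn f N) (hX : IsCompact X) (hXN : X ⊆ N) {κ : ℝ}
    (hκ : 0 < κ) : ∃ r : ℝ, 0 < r ∧ ∀ z ∈ X, ∀ w ∈ ball z r, f w ∈ ball (f z) κ := by
  refine unif hX (p := fun z r => ∀ w ∈ ball z r, f w ∈ ball (f z) κ)
    (fun z r r' _ h1 h2 w hw => h2 w (ball_subset_ball h1 hw)) ?_
  intro z hz
  have h1 : ContinuousAt f z := hf.continuousAt (hN.mem_nhds (hXN hz))
  obtain ⟨t, ht, h4⟩ := Metric.mem_nhds_iff.1 (h1 (ball_mem_nhds (f z) (by linarith : 0 < κ / 2)))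
  refine ⟨t / 2, by linarith, ?_⟩
  filter_upwards [ball_mem_nhds z (by linarith : 0 < t / 2)] with z' h5
  intro w hw
  have h6 : dist (f w) (f z) < κ / 2 := h4 (by
    rw [mem_ball] at hw h5 ⊢
    linarith [dist_triangle w z' z])
  have h7 : dist (f z') (f z) < κ / 2 := h4 (ball_subset_ball (by linarith) h5)
  rw [mem_ball]
  rw [dist_comm] at h7
  linarith [dist_triangle (f w) (f z) (f z')]

/-- shifts of the pull backs -/
theorem wk_shift (F : OnePoint ℂ → OnePoint ℂ) (x : OnePoint ℂ) {n k : ℕ} (hk : k ≤ n) (δ : ℝ) :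
    Wk F x n δ k = Wk F (F^[k] x) (n - k) δ 0 := by
  unfold Wk
  rw [Nat.sub_zero, ← Function.iterate_add_apply, Nat.sub_add_cancel hk]
  rfl

theorem em_sph {F : OnePoint ℂ → OnePoint ℂ} (hF : Continuous F) (hfin : ∀ w, (F ⁻¹' {w}).Finite)
    {e : ℂ → OnePoint ℂ} (he : IsOpenEmbedding e) {f : ℂ → ℂ} {P X N : Set ℂ} (hP : IsCompact P) (hX : IsCompact X)
    (hXP : X ⊆ P) (hN : IsOpen N) (hXN : X ⊆ N) (hf : ContinuousOn f N)
    (heq : ∀ w ∈ N, F (e w) = e (f w)) {s : ℝ} {Vf : ℕ → ℂ → Set ℂ} (hs : 0 < s)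
    (h1 : ∀ z ∈ X, ball z s ⊆ N) (h2 : ∀ z ∈ P \ X, ball z s ⊆ Vf 0 z)
    (h3 : ∀ i, ∀ z ∈ Dm f P X (i + 1), IsOpen (Vf (i + 1) z) ∧ InjOn f (Vf (i + 1) z))
    (h4 : ∀ κ : ℝ, 0 < κ → ∃ i₁ : ℕ, ∀ i ≥ i₁, ∀ z ∈ Dm f P X i, Vf i z ⊆ ball z κ)
    (h5 : ∀ i, ∀ z ∈ Dm f P X (i + 1), ∀ D : Set ℂ, IsPreconnected D → z ∈ D → D ⊆ ball z s →
      (∀ w ∈ D, f w ∈ Vf i (f z)) → D ⊆ Vf (i + 1) z) :
    ∃ (r₀ : ℝ) (i₂ : ℕ), 0 < r₀ ∧ ∀ n, ∀ z ∈ Dm f P X (n + i₂), CT F (e z) n r₀ = ∅ := by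
  have hDP : ∀ i, ∀ z ∈ Dm f P X i, z ∈ P := by
    intro i z hz
    cases i with
    | zero => exact hz.2.1
    | succ i => exact hXP (dm_succ hz).1
  have hDm : ∀ k i, ∀ z ∈ Dm f P X (k + i), F^[k] (e z) = e (f^[k] z) ∧ f^[k] z ∈ Dm f P X i := by
    intro k
    induction k with
    | zero =>
      intro i z hz
      rw [zero_add] at hz
      exact ⟨rfl, hz⟩
    | succ k ih =>
      intro i z hz
      have e1 : k + 1 + i = (k + i) + 1 := by omega
      rw [e1] at hz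
      obtain ⟨e2, e3⟩ := dm_succ hz
      rw [Function.iterate_succ_apply, Function.iterate_succ_apply, heq z (hXN e2)]
      exact ih i (f z) e3
  -- the constants
  obtain ⟨κ1, hκ1, ha⟩ := ch_out he hP hs
  obtain ⟨κ', hκ', hsm⟩ := pre_small hF hfin (half_pos hκ1)
  obtain ⟨κ2, hκ2, hb⟩ := ch_in he hP (half_pos hκ')
  obtain ⟨i₂, hi₂⟩ := h4 (min κ2 s) (lt_min hκ2 hs)
  have hinn : ∀ i, ∃ r : ℝ, 0 < r ∧ ∀ z ∈ Dm f P X i, ball z r ⊆ Vf i z := by
    intro i
    induction i with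
    | zero => exact ⟨s, hs, fun z hz => h2 z hz.2⟩
    | succ i ih =>
      obtain ⟨r, hr, hri⟩ := ih
      obtain ⟨r', hr', hri'⟩ := f_in hN hf hX hXN hr
      refine ⟨min r' s, lt_min hr' hs, fun z hz => ?_⟩
      obtain ⟨e2, e3⟩ := dm_succ hz
      refine h5 i z hz _ (convex_ball _ _).isPreconnected (mem_ball_self (lt_min hr' hs))
        (ball_subset_ball (min_le_right _ _)) fun w hw => ?_
      exact hri (f z) e3 (hri' z e2 w (ball_subset_ball (min_le_left _ _) hw))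
  obtain ⟨r1, hr1, hr1V⟩ := hinn i₂
  obtain ⟨r₀, hr₀, hr₀V⟩ := ch_out he hP hr1
  refine ⟨r₀, i₂, hr₀, ?_⟩
  -- the pull backs are in the windows
  have hT : ∀ n, ∀ z ∈ Dm f P X (n + i₂), Wk F (e z) n r₀ 0 ⊆ e '' Vf (n + i₂) z := by
    intro n
    induction n with
    | zero =>
      intro z hz
      rw [zero_add] at hz ⊢
      refine (connectedComponentIn_subset _ _).trans ?_
      intro y hy
      have h6 : chord y (e z) < r₀ := hy
      rw [ch_comm] at h6
      exact image_mono (hr1V z hz) (hr₀V z (hDP _ z hz) h6)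
    | succ n ih =>
      intro z hz
      have e1 : n + 1 + i₂ = (n + i₂) + 1 := by omega
      rw [e1] at hz ⊢
      obtain ⟨e2, e3⟩ := dm_succ hz
      have hFz : F (e z) = e (f z) := heq z (hXN e2)
      obtain ⟨C, hC⟩ : ∃ C, C = Wk F (e z) (n + 1) r₀ 0 := ⟨_, rfl⟩
      rw [← hC]
      have hCp : IsPreconnected C := hC ▸ isPreconnected_connectedComponentIn
      have hmem : (e z) ∈ {y | chord (F^[n + 1 - 0] y) (F^[n + 1] (e z)) < r₀} := by
        show chord (F^[n + 1] (e z)) (F^[n + 1] (e z)) < r₀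
        rw [chord_zero]
        exact hr₀
      have hzC : e z ∈ C := hC ▸ mem_connectedComponentIn hmem
      have hCs : ∀ y ∈ C, chord (F^[n + 1] y) (F^[n + 1] (e z)) < r₀ := by
        intro y hy
        rw [hC] at hy
        have h6 : y ∈ {y | chord (F^[n + 1 - 0] y) (F^[n + 1] (e z)) < r₀} := connectedComponentIn_subset _ _ hy
        exact h6
      have hFC : F '' C ⊆ e '' Vf (n + i₂) (f z) := by
        refine Subset.trans ?_ (ih (f z) e3)
        refine (hCp.image F hF.continuousOn).subset_connectedComponentIn ⟨e z, hzC, hFz⟩ ?_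
        rintro _ ⟨y, hy, rfl⟩
        have h6 := hCs y hy
        rw [Function.iterate_succ_apply, Function.iterate_succ_apply, hFz] at h6
        exact h6
      have hsmall : ∀ y ∈ F '' C, chord (e (f z)) y < κ' / 2 := by
        intro y hy
        obtain ⟨w, hw, rfl⟩ := hFC hy
        exact hb (f z) (hDP _ _ e3) w (ball_subset_ball (min_le_left _ _) (hi₂ (n + i₂) (by omega) (f z) e3 hw))
      have hCsm : Sm (κ1 / 2) C := by
        refine hsm C hCp fun y hy y' hy' => ?_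
        have h6 := hsmall y hy
        have h7 := hsmall y' hy'
        rw [ch_comm] at h6
        linarith [ch_tri y (e (f z)) y']
      have hCe : C ⊆ e '' ball z s := by
        intro y hy
        refine ha z (hDP _ z hz) ?_
        show chord (e z) y < κ1
        have := hCsm (e z) hzC y hy
        linarith
      obtain ⟨D, hD⟩ : ∃ D, D = e ⁻¹' C := ⟨_, rfl⟩
      have hDp : IsPreconnected D := by
        rw [hD]
        exact hCp.preimage_of_isOpenMap he.injective he.isOpenMap (hCe.trans (image_subset_range _ _))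
      have hDs : D ⊆ ball z s := by
        intro w hw
        rw [hD] at hw
        obtain ⟨w', hw', he'⟩ := hCe hw
        rwa [he.injective he'] at hw'
      have hDV : D ⊆ Vf (n + i₂ + 1) z := by
        refine h5 (n + i₂) z hz D hDp (by rw [hD]; exact hzC) hDs fun w hw => ?_
        have hwN : w ∈ N := h1 z e2 (hDs hw)
        rw [hD] at hw
        obtain ⟨u, hu, hue⟩ := hFC (mem_image_of_mem F hw)
        rw [heq w hwN] at hue
        rwa [he.injective hue] at hu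
      intro y hy
      obtain ⟨w, -, rfl⟩ := hCe hy
      exact ⟨w, hDV (by rw [hD]; exact hy), rfl⟩
  -- no critical points
  have hnc : ∀ n, ∀ z ∈ Dm f P X (n + 1 + i₂), ∀ q ∈ Wk F (e z) (n + 1) r₀ 0, ¬ IsCrit F q := by
    intro n z hz q hq hcr
    obtain ⟨w, hw, rfl⟩ := hT (n + 1) z hz hq
    have e1 : n + 1 + i₂ = (n + i₂) + 1 := by omega
    rw [e1] at hz hw
    obtain ⟨h6, h7⟩ := h3 (n + i₂) z hz
    refine hcr ⟨e '' Vf (n + i₂ + 1) z, (he.isOpenMap _ h6).mem_nhds (mem_image_of_mem e hw), ?_⟩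
    have h8 : Vf (n + i₂ + 1) z ⊆ N :=
      (hi₂ (n + i₂ + 1) (by omega) z hz).trans ((ball_subset_ball (min_le_right _ _)).trans (h1 z (dm_succ hz).1))
    rintro _ ⟨a, ha', rfl⟩ _ ⟨b, hb', rfl⟩ hab
    rw [heq a (h8 ha'), heq b (h8 hb')] at hab
    rw [h7 ha' hb' (he.injective hab)]
  intro n z hz
  rw [Set.eq_empty_iff_forall_notMem]
  rintro k ⟨hk, q, hq, hqW⟩
  rw [wk_shift F (e z) hk.le] at hqW
  have e1 : n + i₂ = k + ((n - k) + i₂) := by omega
  rw [e1] at hz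
  obtain ⟨e2, e3⟩ := hDm k _ z hz
  rw [e2] at hqW
  obtain ⟨m, hm⟩ : ∃ m, n - k = m + 1 := ⟨n - k - 1, by omega⟩
  rw [hm] at hqW e3
  exact hnc m _ e3 q hqW hq

end Pool.Agent.H39.EMB
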