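import Pool.Agent.H39.EMB.FR
import Pool.Agent.H39.EMB.SP
import Pool.Agent.H39.HO.BS
import Pool.Agent.H3.UP.TDU

/-!
# Minimal sets in totally disconnected post-critical sets: Julia set not the sphere

`clo_nhd`: clopen neighbourhoods of closed subsets of totally disconnected compact sets. `mm_cd`: a recurrent critical
point `c` lies in every nonempty closed invariant subset of its limit set.
-/

set_option autoImplicit false

open Filter Topology Polynomial Metric Set MeasureTheory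

namespace Pool.Agent.H39.EMB

open Pool.Agent.H44.Fatou (rat rat_continuous rat_coe rat_coe_of_ne pt crit_coe)
open Pool.Agent.H32.BT Pool.Agent.H79.Eul Pool.Agent.H79.Par
open Pool.Agent.H35.EX Pool.Agent.H56.HR Pool.Agent.H44.RC Pool.Agent.H47.RJ
open Pool.Agent.H47.NN Pool.Agent.H44.ND Pool.Agent.H79.ES Pool.Agent.H47.NM Pool.Agent.H57.CF
open Pool.Agent.H64.NC Pool.Agent.H61.TT Pool.Agent.H57.CP Pool.Agent.H3.NC
open Pool.Agent.H18.UP (NJ PJ Cr Geo CU ps_conj ps_pj)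
open Pool.Agent.H27.BR
open Pool.Agent.H64.JS (KJ kj_inv it_mem)
open Pool.Agent.H56.TH (Full ps_he)
open Pool.Agent.H39.HO

/-- clopen neighbourhoods of closed sets -/
theorem clo_nhd {X : Type*} [TopologicalSpace X] [CompactSpace X] [T2Space X] {K M F : Set X} (hK : IsClosed K)
    (htd : IsTotallyDisconnected K) (hM : IsClosed M) (hMK : M ⊆ K) (hF : IsClosed F) (hMF : Disjoint M F) :
    ∃ A : Set X, A ⊆ K ∧ IsClosed A ∧ IsClosed (K \ A) ∧ M ⊆ A ∧ Disjoint A F := by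
  have h1 : ∀ y ∈ M, ∃ A : Set X, A ⊆ K ∧ IsClosed A ∧ IsClosed (K \ A) ∧ y ∈ A ∧ A ⊆ Fᶜ := by
    intro y hy
    refine Pool.Agent.H3.UP.clp hK (hMK hy) ?_ hF.isOpen_compl (fun h => Set.disjoint_left.1 hMF hy h)
    refine Subset.antisymm ?_ (singleton_subset_iff.2 (mem_connectedComponentIn (hMK hy)))
    intro z hz
    exact htd _ (connectedComponentIn_subset _ _) isPreconnected_connectedComponentIn hz
      (mem_connectedComponentIn (hMK hy))
  choose! A hA1 hA2 hA3 hA4 hA5 using h1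
  obtain ⟨t, ht, hcov⟩ := hM.isCompact.elim_nhds_subcover (fun y => (K \ A y)ᶜ)
    (fun y hy => (hA3 y hy).isOpen_compl.mem_nhds fun h => h.2 (hA4 y hy))
  refine ⟨⋃ y ∈ t, A y, iUnion₂_subset fun y hy => hA1 y (ht y hy), ?_, ?_, ?_, ?_⟩
  · exact isClosed_biUnion_finset fun y hy => hA2 y (ht y hy)
  · have h2 : K \ ⋃ y ∈ t, A y = K ∩ ⋂ y ∈ t, (K \ A y) ∪ Kᶜ := by
      ext z
      simp only [mem_diff, mem_iUnion, not_exists, mem_inter_iff, mem_iInter, mem_union, mem_compl_iff]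
      constructor
      · rintro ⟨h3, h4⟩
        exact ⟨h3, fun y hy => Or.inl ⟨h3, h4 y hy⟩⟩
      · rintro ⟨h3, h4⟩
        refine ⟨h3, fun y hy hz => ?_⟩
        rcases h4 y hy with h5 | h5
        · exact h5.2 hz
        · exact h5 h3
    have h3 : K \ ⋃ y ∈ t, A y = K ∩ ⋂ y ∈ t, (A y ∩ K)ᶜ := by
      ext z
      simp only [mem_diff, mem_iUnion, not_exists, mem_inter_iff, mem_iInter, mem_compl_iff, not_and]
      exact ⟨fun h => ⟨h.1, fun y hy hz _ => h.2 y hy hz⟩, fun h => ⟨h.1, fun y hy hz => h.2 y hy hz h.1⟩⟩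
    rcases t.eq_empty_or_nonempty with h4 | ⟨y0, hy0⟩
    · subst h4
      simpa using hK
    · have h5 : K \ ⋃ y ∈ t, A y = ⋂ y ∈ t, (K \ A y) := by
        ext z
        simp only [mem_diff, mem_iUnion, not_exists, mem_iInter]
        exact ⟨fun h y hy => ⟨h.1, fun hz => h.2 y hy hz⟩, fun h => ⟨(h y0 hy0).1, fun y hy hz => (h y hy).2 hz⟩⟩
      rw [h5]
      exact isClosed_biInter fun y hy => hA3 y (ht y hy)
  · intro z hz
    obtain ⟨y, hyt, hy⟩ := mem_iUnion₂.1 (hcov hz)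
    refine mem_iUnion₂.2 ⟨y, hyt, ?_⟩
    by_contra h
    exact hy ⟨hMK hz, h⟩
  · rw [Set.disjoint_left]
    intro z hz
    obtain ⟨y, hyt, hy⟩ := mem_iUnion₂.1 hz
    exact hA5 y (ht y hyt) hy

/-- limit sets of the points of `KJ`, and of the critical points of `J` -/
theorem om_sub {f : OnePoint ℂ → OnePoint ℂ} {K : Set (OnePoint ℂ)} (hK : IsClosed K) {x : OnePoint ℂ}
    (hx : ∀ n, 1 ≤ n → f^[n] x ∈ K) : Om f x ⊆ K := by
  intro y hy
  by_contra hyK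
  have h1 := hy Kᶜ (hK.isOpen_compl.mem_nhds hyK)
  obtain ⟨n, hn, h2⟩ := (h1.and_eventually (eventually_ge_atTop 1)).exists
  exact hn (hx n h2)

variable {d : ℕ}

/-- Julia set not the sphere -/
theorem mm_cd {v u : E d} {φ : OnePoint ℂ ≃ₜ OnePoint ℂ} {K0 : ℝ} {T : Set (OnePoint ℂ)} {D : ℕ}
    (h : CD v u φ K0 T D) (hcop : IsCoprime (pol v.1) (pol v.2)) (hdv : 1 ≤ max (pol v.1).natDegree (pol v.2).natDegree)
    (htd : IsTotallyDisconnected (KJ {c | IsCrit (Rf v) c} (JS (Rf v)) (Rf v)))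
    (hc0 : ∀ δ : ℝ, 0 < δ → ∃ N : ℕ, ∀ n, N ≤ n → ∀ x ∈ KJ {c | IsCrit (Rf v) c} (JS (Rf v)) (Rf v),
      0 < (CT (Rf v) x n δ).ncard) {c : OnePoint ℂ} (hc : IsCrit (Rf v) c) (hcJ : c ∈ JS (Rf v))
    (hcO : c ∈ Om (Rf v) c) {M : Set (OnePoint ℂ)} (hMc : IsClosed M) (hMn : M.Nonempty)
    (hMf : ∀ x ∈ M, Rf v x ∈ M) (hMO : M ⊆ Om (Rf v) c) : c ∈ M := by
  by_contra hcM
  have hcont : Continuous (Rf v) := rat_continuous hcop
  obtain ⟨K, hK⟩ : ∃ K, K = KJ {c | IsCrit (Rf v) c} (JS (Rf v)) (Rf v) := ⟨_, rfl⟩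
  rw [← hK] at htd hc0
  have hKf : ∀ x ∈ K, Rf v x ∈ K := hK ▸ kj_inv hcont
  have hKc : IsClosed K := hK ▸ isClosed_closure
  have hcK : ∀ n, 1 ≤ n → (Rf v)^[n] c ∈ K := fun n hn => hK ▸ subset_closure ⟨c, hc, hcJ, n, hn, rfl⟩
  have hMK : M ⊆ K := hMO.trans (om_sub hKc hcK)
  -- the clopen neighbourhood of `M`
  have hfin : {q | IsCrit (Rf v) q}.Finite := crit_finite hcop hdv
  obtain ⟨Fs, hFs⟩ : ∃ Fs : Set (OnePoint ℂ), Fs = insert c ({q | IsCrit (Rf v) q} \ M) := ⟨_, rfl⟩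
  have hFf : Fs.Finite := hFs ▸ (hfin.subset diff_subset).insert c
  have hFM : Disjoint M Fs := by
    rw [Set.disjoint_left]
    intro x hx hxF
    rw [hFs] at hxF
    rcases hxF with h1 | h1
    · exact hcM (h1 ▸ hx)
    · exact h1.2 hx
  obtain ⟨Xs, hXK, hXc, hXZ, hMX, hXF⟩ := clo_nhd hKc htd hMc hMK hFf.isClosed hFM
  have hcX : c ∉ Xs := fun h1 => Set.disjoint_left.1 hXF h1 (by rw [hFs]; exact mem_insert _ _)
  have hcrX : ∀ q ∈ Xs, IsCrit (Rf v) q → q ∈ M := by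
    intro q hq hqc
    by_contra hqM
    exact Set.disjoint_left.1 hXF hq (by rw [hFs]; exact mem_insert_of_mem _ ⟨hqc, hqM⟩)
  -- the chart
  have hJ : φ c ∈ JS (Rf u) := (js_conj φ (fun y => (h.conj y).symm) c).2 hcJ
  have hi : φ c ≠ OnePoint.infty := by
    intro h1
    rw [h1] at hJ
    exact hJ h.ga.fi
  obtain ⟨c1, hc1⟩ := OnePoint.ne_infty_iff_exists.1 hi
  have hcr1 : IsCrit (Rf u) (c1 : OnePoint ℂ) := by
    rw [hc1]
    exact (isCrit_conj φ h.conj c).2 hc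
  rw [← hc1] at hJ
  obtain ⟨δ0, hG⟩ := geo_cd h hcr1 hJ
  have hb1 : (pol u.2).eval c1 ≠ 0 := h.ga.bne hJ
  have hCr1 : Cr (pol u.1) (pol u.2) c1 := ⟨hb1, (Pool.Agent.H18.UP.crit_iff hG hb1).1 hcr1⟩
  obtain ⟨δ, η, ρ, hPS⟩ := ps_ga h.ga hG hJ hCr1
  obtain ⟨δ', hPS', hesc⟩ := ps_he h.ga hPS
  have hCU := cu_cd h hG
  obtain ⟨e, he⟩ : ∃ e : ℂ → OnePoint ℂ, e = fun w : ℂ => φ.symm (w : OnePoint ℂ) := ⟨_, rfl⟩
  have hemb : IsOpenEmbedding e := he ▸ φ.symm.isOpenEmbedding.comp OnePoint.isOpenEmbedding_coe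
  have hea : ∀ w : ℂ, e w = φ.symm (w : OnePoint ℂ) := fun w => by rw [he]
  have hφe : ∀ w : ℂ, φ (e w) = (w : OnePoint ℂ) := fun w => by rw [hea, φ.apply_symm_apply]
  have hec : Continuous e := hemb.continuous
  have hei : Function.Injective e := hemb.injective
  have heq : ∀ w ∈ {z : ℂ | (pol u.2).eval z ≠ 0}, (Rf v) (e w) = e (gg (pol u.1) (pol u.2) w) := by
    intro w hw
    have h1 := h.conj (e w)
    rw [hφe] at h1
    have h2 : Rf u (w : OnePoint ℂ) = ((gg (pol u.1) (pol u.2) w : ℂ) : OnePoint ℂ) := rat_coe_of_ne hw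
    rw [h2] at h1
    rw [hea (gg (pol u.1) (pol u.2) w), h1, φ.symm_apply_apply]
  have hPQ : ∀ z : ℂ, z ∈ PJ (pol u.1) (pol u.2) (JC u) ↔ e z ∈ K := by
    intro z
    rw [hK]
    constructor
    · intro hz
      have h1 := (ps_pj hCU z).2 hz
      rw [← hφe] at h1
      exact (ps_conj hCU (e z)).1 h1
    · intro hz
      have h1 : φ (e z) ∈ Pool.Agent.H18.UP.PS (Rf u) := (ps_conj hCU (e z)).2 hz
      rw [hφe] at h1
      exact (ps_pj hCU z).1 h1
  have hPJ := pj_sub hG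
  have hKJ : ∀ x ∈ K, x ∈ range e := by
    intro x hx
    rw [hK] at hx
    have h1 : φ x ∈ JS (Rf u) := by
      refine (js_conj φ (fun y => (h.conj y).symm) x).2 ?_
      exact Pool.Agent.H64.JS.kj_sub (js_closed (Rf v)) (fun x hx => by
        have h3 : φ x ∈ JS (Rf u) := (js_conj φ (fun y => (h.conj y).symm) x).2 hx
        have h4 := h.ga.js 1 h3
        rw [Function.iterate_one, h.conj] at h4
        exact (js_conj φ (fun y => (h.conj y).symm) _).1 h4) hx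
    have h2 : φ x ≠ OnePoint.infty := by
      intro h3
      rw [h3] at h1
      exact h1 h.ga.fi
    obtain ⟨z, hz⟩ := OnePoint.ne_infty_iff_exists.1 h2
    exact ⟨z, by rw [hea, hz, φ.symm_apply_apply]⟩
  have hPc : IsCompact (PJ (pol u.1) (pol u.2) (JC u)) := hPS'.Jc.of_isClosed_subset hPS'.Pc hPS'.PJ
  have hPU : PJ (pol u.1) (pol u.2) (JC u) ⊆ {z : ℂ | (pol u.2).eval z ≠ 0} := fun z hz => h.ga.bne (hPJ hz)
  obtain ⟨P, hP⟩ : ∃ P, P = PJ (pol u.1) (pol u.2) (JC u) := ⟨_, rfl⟩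
  rw [← hP] at hPQ hPc hPU
  have hPe : P = e ⁻¹' K := by
    ext z
    exact hPQ z
  -- the planar sets
  obtain ⟨X, hX⟩ : ∃ X : Set ℂ, X = e ⁻¹' Xs := ⟨_, rfl⟩
  obtain ⟨M', hM'⟩ : ∃ M' : Set ℂ, M' = e ⁻¹' M := ⟨_, rfl⟩
  have hXP : X ⊆ P := by
    rw [hX, hPe]
    exact preimage_mono hXK
  have hXcl : IsClosed X := hX ▸ hXc.preimage hec
  have hM'cl : IsClosed M' := hM' ▸ hMc.preimage hec
  have hZeq : P \ X = e ⁻¹' (K \ Xs) := by rw [hPe, hX, preimage_diff]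
  have hZc : IsCompact (P \ X) := by
    refine hPc.of_isClosed_subset ?_ diff_subset
    rw [hZeq]
    exact hXZ.preimage hec
  have hXcpt : IsCompact X := hPc.of_isClosed_subset hXcl hXP
  have hop : IsOpenMap (Rf u) := rat_open h.ga.cop (by rw [h.ga.deg]; have := h.ga.hd; omega)
  have hom : ∀ O ⊆ {z : ℂ | (pol u.2).eval z ≠ 0}, IsOpen O → IsOpen (gg (pol u.1) (pol u.2) '' O) := by
    intro O hO hOo
    have h1 : IsOpen (Rf u '' (((↑) : ℂ → OnePoint ℂ) '' O)) := hop _ (OnePoint.isOpenEmbedding_coe.isOpenMap O hOo)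
    have h2 : gg (pol u.1) (pol u.2) '' O = ((↑) : ℂ → OnePoint ℂ) ⁻¹' (Rf u '' (((↑) : ℂ → OnePoint ℂ) '' O)) := by
      ext y
      constructor
      · rintro ⟨w, hw, rfl⟩
        exact ⟨w, ⟨w, hw, rfl⟩, rat_coe_of_ne (hO hw)⟩
      · rintro ⟨_, ⟨w, hw, rfl⟩, hwy⟩
        refine ⟨w, hw, OnePoint.coe_injective ?_⟩
        rw [← hwy]
        exact (rat_coe_of_ne (hO hw)).symm
    rw [h2]
    exact h1.preimage OnePoint.continuous_coe
  have hPf : ∀ z ∈ P, gg (pol u.1) (pol u.2) z ∈ P := by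
    intro z hz
    rw [hPQ, ← heq z (hPU hz)]
    exact hKf _ ((hPQ z).1 hz)
  have hM'f : ∀ z ∈ M', gg (pol u.1) (pol u.2) z ∈ M' := by
    intro z hz
    have hzP : z ∈ P := by
      rw [hPQ]
      rw [hM'] at hz
      exact hMK hz
    rw [hM'] at hz ⊢
    show e (gg (pol u.1) (pol u.2) z) ∈ M
    rw [← heq z (hPU hzP)]
    exact hMf _ hz
  have htdP : ∀ z ∈ P, connectedComponentIn P z = {z} := by
    intro z hz
    refine Subset.antisymm ?_ (singleton_subset_iff.2 (mem_connectedComponentIn hz))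
    intro y hy
    have h1 := htd (e '' connectedComponentIn P z) (by
      rintro _ ⟨w, hw, rfl⟩
      exact (hPQ w).1 (connectedComponentIn_subset _ _ hw))
      (isPreconnected_connectedComponentIn.image e hec.continuousOn) (mem_image_of_mem e hy)
      (mem_image_of_mem e (mem_connectedComponentIn hz))
    exact hei h1
  have hcr : ∀ z ∈ X, deriv (gg (pol u.1) (pol u.2)) z ≠ 0 ∨ gg (pol u.1) (pol u.2) z ∈ M' := by
    intro z hz
    by_cases hd0 : deriv (gg (pol u.1) (pol u.2)) z = 0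
    · right
      have hb : (pol u.2).eval z ≠ 0 := hPU (hXP hz)
      have hw : (ww (pol u.1) (pol u.2)).eval z = 0 := by
        rw [(hasDerivAt_gg hb).deriv] at hd0
        unfold dg at hd0
        rcases div_eq_zero_iff.1 hd0 with h1 | h1
        · exact h1
        · exact absurd h1 (pow_ne_zero 2 hb)
      have h1 : IsCrit (Rf u) (z : OnePoint ℂ) :=
        crit_of_wr h.ga.cop (by rw [h.ga.deg]; have := h.ga.hd; omega) hw
      have h2 : IsCrit (Rf v) (e z) := by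
        rw [← hφe z] at h1
        exact (isCrit_conj φ h.conj (e z)).1 h1
      apply hM'f
      rw [hX] at hz
      rw [hM']
      exact hcrX _ hz h2
    · exact Or.inl hd0
  have hMX' : M' ⊆ X := by
    rw [hM', hX]
    exact preimage_mono hMX
  have hc1X : c1 ∉ X := by
    rw [hX]
    intro h1
    have h2 : e c1 = c := by rw [hea, hc1, φ.symm_apply_apply]
    apply hcX
    rw [← h2]
    exact h1
  rw [← hP] at hPS'
  obtain ⟨N, G, ρ', hEW, hNU⟩ := em_ps hPS' hesc hom htdP hXcpt hZc hXP hM'cl hMX' hM'f hcr hJ hc1X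
  obtain ⟨s, Vf, hs, k1, k2, k3, k4, k5⟩ := chain hEW
  have hXN : X ⊆ N := fun z hz => k1 z hz (mem_ball_self hs)
  obtain ⟨r₀, i₂, hr₀, hct⟩ := em_sph hcont (rat_fiber_finite hcop hdv) hemb hPc hXcpt hXP hEW.No hXN
    (hEW.fd.continuousOn) (fun w hw => heq w (hNU hw)) hs k1 k2 k3 k4 k5
  obtain ⟨N0, hN0⟩ := hc0 r₀ hr₀
  -- the orbit
  have hit : ∀ n : ℕ, ∀ z ∈ P, (Rf v)^[n] (e z) = e ((gg (pol u.1) (pol u.2))^[n] z) ∧
      (gg (pol u.1) (pol u.2))^[n] z ∈ P := by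
    intro n
    induction n with
    | zero => exact fun z hz => ⟨rfl, hz⟩
    | succ n ih =>
      intro z hz
      rw [Function.iterate_succ_apply, Function.iterate_succ_apply, heq z (hPU hz)]
      exact ih _ (hPf z hz)
  obtain ⟨m, hm⟩ : ∃ m, m = N0 + i₂ := ⟨_, rfl⟩
  obtain ⟨O, hO⟩ : ∃ O : Set (OnePoint ℂ), O = ⋂ j ∈ Finset.range (m + 1), (Rf v)^[j] ⁻¹' (K \ Xs)ᶜ := ⟨_, rfl⟩
  have hOo : IsOpen O := hO ▸ isOpen_biInter_finset fun j _ => hXZ.isOpen_compl.preimage (hcont.iterate j)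
  have hMO2 : M ⊆ O := by
    intro x hx
    rw [hO]
    refine mem_iInter₂.2 fun j _ h1 => h1.2 (hMX (it_mem hMf hx j))
  obtain ⟨p, hp⟩ := hMn
  obtain ⟨n1, hn1, hn1'⟩ := ((hMO hp O (hOo.mem_nhds (hMO2 hp))).and_eventually (eventually_ge_atTop 1)).exists
  obtain ⟨y, hy⟩ : ∃ y, y = (Rf v)^[n1] c := ⟨_, rfl⟩
  rw [← hy] at hn1
  have hyK : y ∈ K := hy ▸ hcK n1 hn1'
  have hyit : ∀ j ≤ m, (Rf v)^[j] y ∈ Xs := by
    intro j hj
    rw [hO] at hn1
    have h1 := mem_iInter₂.1 hn1 j (Finset.mem_range.2 (by omega))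
    by_contra h2
    exact h1 ⟨it_mem hKf hyK j, h2⟩
  have hex : ∃ t : ℕ, (Rf v)^[t] y ∉ Xs := by
    obtain ⟨n2, hn2, hn2'⟩ := ((hcO Xsᶜ (hXc.isOpen_compl.mem_nhds hcX)).and_eventually (eventually_ge_atTop n1)).exists
    refine ⟨n2 - n1, ?_⟩
    rw [hy, ← Function.iterate_add_apply, Nat.sub_add_cancel hn2']
    exact hn2
  classical
  obtain ⟨t, ht, htmin⟩ : ∃ t : ℕ, (Rf v)^[t] y ∉ Xs ∧ ∀ j < t, (Rf v)^[j] y ∈ Xs :=
    ⟨Nat.find hex, Nat.find_spec hex, fun j hj => not_not.1 (Nat.find_min hex hj)⟩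
  have htm : m < t := by
    by_contra h1
    exact ht (hyit t (not_lt.1 h1))
  obtain ⟨z, rfl⟩ := hKJ y hyK
  have hzP : z ∈ P := (hPQ z).2 hyK
  have hDm : z ∈ Dm (gg (pol u.1) (pol u.2)) P X t := by
    refine ⟨fun j hj => ?_, (hit t z hzP).2, ?_⟩
    · rw [hX]
      show e _ ∈ Xs
      rw [← (hit j z hzP).1]
      exact htmin j hj
    · rw [hX]
      show e _ ∉ Xs
      rw [← (hit t z hzP).1]
      exact ht
  have h1 := hct (t - i₂) z (by rw [Nat.sub_add_cancel (by omega)]; exact hDm)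
  have h2 := hN0 (t - i₂) (by omega) (e z) hyK
  rw [h1, ncard_empty] at h2
  exact absurd h2 (lt_irrefl 0)

end Pool.Agent.H39.EMB
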