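import Pool.Agent.H39.EMB.PB

/-!
# Pull backs along orbits which leave a neighbourhood of an invariant set: chains

`chain`: along every orbit which stays `i` steps in `X` and leaves `X` there are windows `Vf j`, which shrink uniformly,
on which `f` is injective, and which contain all small connected sets which are mapped into the next window.
-/

set_option autoImplicit false

open Filter Topology Metric Set MeasureTheory
open scoped MeasureTheory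

namespace Pool.Agent.H39.EMB

open Pool.Agent.H56.TH Pool.Agent.H39.HO

variable {f : ℂ → ℂ} {P X M N G : Set ℂ} {ρ : ℂ → ENNReal}

theorem resc2 (hH : EW f P X M N G ρ) {r : ℝ} (hr : 0 < r) :
    ∃ i₀ : ℕ, ∀ i ≥ i₀, ∀ z : ℂ, ¬ ∀ j < i, ∀ w ∈ ball z r, f^[j] w ∈ N := by
  by_contra hcon
  push Not at hcon
  have h1 : ∀ n : ℕ, ∃ z : ℂ, ∀ j < n + 1, ∀ w ∈ ball z r, f^[j] w ∈ N := by
    intro n
    obtain ⟨i, hi, z, hz⟩ := hcon (n + 1)
    exact ⟨z, fun j hj => hz j (hj.trans_le hi)⟩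
  choose z hz using h1
  obtain ⟨R, hR⟩ := (hH.Gb.subset hH.NG).subset_closedBall (0 : ℂ)
  have h2 : ∀ n, z n ∈ closedBall (0 : ℂ) R := by
    intro n
    have h3 := hz n 0 (Nat.succ_pos _) (z n) (mem_ball_self hr)
    simp only [Function.iterate_zero, id] at h3
    exact hR h3
  obtain ⟨a, -, φ, hφ, hlim⟩ := (isCompact_closedBall (0 : ℂ) R).tendsto_subseq h2
  obtain ⟨j, w, hw, hj⟩ := hH.esc (ball a (r / 2)) isOpen_ball ⟨a, mem_ball_self (by linarith)⟩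
  obtain ⟨K, hK⟩ := Metric.tendsto_atTop.1 hlim (r / 2) (by linarith)
  have h6 := hK (max K j) (le_max_left _ _)
  refine hj (hz (φ (max K j)) j (Nat.lt_succ_of_le ((le_max_right K j).trans (hφ.id_le _))) w ?_)
  rw [mem_ball] at hw ⊢
  simp only [Function.comp] at h6
  rw [dist_comm] at h6
  linarith [dist_triangle w a (z (φ (max K j)))]

/-- the points whose orbits stay `i` steps in `X` and leave `X` then -/
def Dm (f : ℂ → ℂ) (P X : Set ℂ) (i : ℕ) : Set ℂ := {z | (∀ j < i, f^[j] z ∈ X) ∧ f^[i] z ∈ P \ X}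

theorem dm_succ {i : ℕ} {z : ℂ} (h : z ∈ Dm f P X (i + 1)) : z ∈ X ∧ f z ∈ Dm f P X i := by
  obtain ⟨h1, h2⟩ := h
  refine ⟨h1 0 (Nat.succ_pos _), fun j hj => ?_, ?_⟩
  · rw [← Function.iterate_succ_apply]
    exact h1 (j + 1) (by omega)
  · rw [← Function.iterate_succ_apply]
    exact h2

theorem dm_P (hH : EW f P X M N G ρ) {i : ℕ} {z : ℂ} (h : z ∈ Dm f P X i) : z ∈ P := by
  cases i with
  | zero => exact h.2.1
  | succ i => exact hH.XP (dm_succ h).1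

theorem chain (hH : EW f P X M N G ρ) : ∃ (s : ℝ) (Vf : ℕ → ℂ → Set ℂ), 0 < s ∧
    (∀ z ∈ X, ball z s ⊆ N) ∧
    (∀ z ∈ P \ X, ball z s ⊆ Vf 0 z) ∧
    (∀ i, ∀ z ∈ Dm f P X (i + 1), IsOpen (Vf (i + 1) z) ∧ InjOn f (Vf (i + 1) z)) ∧
    (∀ κ : ℝ, 0 < κ → ∃ i₁ : ℕ, ∀ i ≥ i₁, ∀ z ∈ Dm f P X i, Vf i z ⊆ ball z κ) ∧
    (∀ i, ∀ z ∈ Dm f P X (i + 1), ∀ D : Set ℂ, IsPreconnected D → z ∈ D → D ⊆ ball z s →
      (∀ w ∈ D, f w ∈ Vf i (f z)) → D ⊆ Vf (i + 1) z) := by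
  classical
  -- the charts around the points of `X`
  obtain ⟨C1, η1, s1, hC1, hη1, hs1, hc1⟩ := rcol2 (P := P) (G := G) hH.met hH.Xc
    (Φ := fun A => A ⊆ N ∧ Brn f M A) (by
      intro z hz
      obtain ⟨r, hr, hrN, hbr⟩ := hH.ch z hz
      obtain ⟨Q, hQ1, hQ2, hQ3, hQ4, hQ5⟩ := hH.col z (hH.XP hz) r hr
      exact ⟨ball z r, Q, ⟨hrN, hbr⟩, isOpen_ball, full_ball z r, hrN.trans hH.NG, hQ1, hQ3, hQ2, hQ4, hQ5⟩)
  -- the charts around the other points of `P`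
  obtain ⟨C2, η2, s2, hC2, hη2, hs2, hc2⟩ := rcol2 (P := P) (G := G) hH.met hH.Zc
    (Φ := fun A => IsPreconnected A ∧ Disjoint A M) (by
      intro z hz
      have h1 : G ∩ Mᶜ ∈ 𝓝 z := (hH.Go.inter hH.Mc.isOpen_compl).mem_nhds ⟨hH.PG hz.1, fun h => hz.2 (hH.MX h)⟩
      obtain ⟨r, hr, hrG⟩ := Metric.mem_nhds_iff.1 h1
      obtain ⟨Q, hQ1, hQ2, hQ3, hQ4, hQ5⟩ := hH.col z hz.1 r hr
      refine ⟨ball z r, Q, ⟨(convex_ball z r).isPreconnected, ?_⟩, isOpen_ball, full_ball z r,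
        hrG.trans inter_subset_left, hQ1, hQ3, hQ2, hQ4, hQ5⟩
      exact Set.disjoint_left.2 fun w hw => (hrG hw).2)
  obtain ⟨C, hC⟩ : ∃ C, C = C1 + C2 := ⟨_, rfl⟩
  have hCt : C ≠ ⊤ := hC ▸ ENNReal.add_ne_top.2 ⟨hC1, hC2⟩
  obtain ⟨s, hs⟩ : ∃ s, s = min s1 s2 := ⟨_, rfl⟩
  have hs0 : 0 < s := hs ▸ lt_min hs1 hs2
  have hss1 : s ≤ s1 := hs ▸ min_le_left _ _
  have hss2 : s ≤ s2 := hs ▸ min_le_right _ _
  obtain ⟨i₀, hi₀⟩ := resc2 hH hη1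
  obtain ⟨Λ, hΛ⟩ : ∃ Λ : ℕ → ENNReal, Λ = fun i => ((min i i₀ + 1 : ℕ) : ENNReal) * C := ⟨_, rfl⟩
  have hΛt : ∀ i, Λ i ≤ ((i₀ + 1 : ℕ) : ENNReal) * C := by
    intro i
    rw [hΛ]
    show ((min i i₀ + 1 : ℕ) : ENNReal) * C ≤ ((i₀ + 1 : ℕ) : ENNReal) * C
    gcongr
    exact min_le_right _ _
  -- the start
  have hstart : ∀ z ∈ P \ X, ∃ V W : Set ℂ, St f P M N G ρ 0 (Λ 0) z V W ∧ ball z s ⊆ V := by
    intro z hz
    obtain ⟨A, S, ⟨hAp, hAM⟩, hAo, hAf, hAG, hSc, hSA, hbA, hcut⟩ := hc2 z hz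
    have hzA : z ∈ A := hbA (mem_ball_self hs2)
    have hRW : RW P A A := ⟨hAo, hAp, fun O _ _ h _ => subset_closure.trans h, fun w hw hwA => by
      rw [frontier, hAo.interior_eq] at hw
      exact absurd hwA hw.2⟩
    obtain ⟨V', h1, h2, h3, h4, h5, h6⟩ := (hcut A hRW subset_rfl hzA).1
    have h7 : frontier A ∩ S = ∅ := by
      rw [Set.eq_empty_iff_forall_notMem]
      rintro w ⟨hw, hwS⟩
      rw [frontier, hAo.interior_eq] at hw
      exact hw.2 (hSA hwS)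
    rw [h7, Measure.restrict_empty, lintegral_zero_measure, zero_add] at h6
    refine ⟨V', A, ⟨hAo, hAp, hAf, hAG, hAM, fun j hj => absurd hj (Nat.not_lt_zero j), h1, h2, ?_, ?_⟩, ?_⟩
    · rw [closure_eq_self_union_frontier]
      exact union_subset h3 h4
    · refine h6.trans ?_
      rw [hΛ]
      show C2 ≤ ((min 0 i₀ + 1 : ℕ) : ENNReal) * C
      rw [Nat.zero_min, zero_add, Nat.cast_one, one_mul, hC]
      exact le_add_self
    · exact h5 (ball z s) (convex_ball z s).isPreconnected (mem_ball_self hs0)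
        ((ball_subset_ball hss2).trans hbA) (ball_subset_ball hss2)
  -- the step
  have hstep : ∀ (i : ℕ), ∀ z ∈ X, ∀ V₀ W₀ : Set ℂ, St f P M N G ρ i (Λ i) (f z) V₀ W₀ →
      ∃ V W : Set ℂ, St f P M N G ρ (i + 1) (Λ (i + 1)) z V W ∧ InjOn f V ∧
        ∀ D : Set ℂ, IsPreconnected D → z ∈ D → D ⊆ ball z s → (∀ w ∈ D, f w ∈ V₀) → D ⊆ V := by
    intro i z hz V₀ W₀ h₀
    obtain ⟨A, S, ⟨hAN, hbr⟩, hAo, hAf, hAG, hSc, hSA, hbA, hcut⟩ := hc1 z hz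
    have hzA : z ∈ A := hbA (mem_ball_self hs1)
    obtain ⟨V, W, hV1, hV2, hV3, hV4, hV5, hW1, hW2, hW3, hW4, hW5, hW6, hW7, hVW, hVD⟩ :=
      rpull2 hH hAo hAf hAN hbr hzA (hH.XP hz) hSc hSA h₀
    have hstay : ∀ j < i + 1, ∀ w ∈ W, f^[j] w ∈ N := by
      intro j hj w hw
      cases j with
      | zero => exact hAN (hW4 hw)
      | succ j =>
        rw [Function.iterate_succ_apply]
        exact h₀.stay j (by omega) (f w) (hW6 w hw)
    have hVW' : V ⊆ W := fun w hw => hVW w (subset_closure hw) (hV2 hw)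
    have hfin : ∀ V' : Set ℂ, Wn P V' → z ∈ V' → V' ⊆ V → frontier V' ⊆ A →
        (∀ D : Set ℂ, IsPreconnected D → z ∈ D → D ⊆ V → D ⊆ ball z s1 → D ⊆ V') → len ρ V' ≤ Λ (i + 1) →
        ∃ V W : Set ℂ, St f P M N G ρ (i + 1) (Λ (i + 1)) z V W ∧ InjOn f V ∧
          ∀ D : Set ℂ, IsPreconnected D → z ∈ D → D ⊆ ball z s → (∀ w ∈ D, f w ∈ V₀) → D ⊆ V := by
      intro V' h1 h2 h3 h4 h5 h6
      refine ⟨V', W, ⟨hW1, hW2, hW3, hW4.trans hAG, hW5, hstay, h1, h2, ?_, h6⟩, hW7.mono (h3.trans hVW'), ?_⟩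
      · intro w hw
        refine hVW w (closure_mono h3 hw) ?_
        rw [closure_eq_self_union_frontier] at hw
        rcases hw with hw | hw
        · exact hV2 (h3 hw)
        · exact h4 hw
      · intro D hD hzD hDs hDf
        have hDA : D ⊆ A := (hDs.trans (ball_subset_ball hss1)).trans hbA
        exact h5 D hD hzD (hVD D hD hzD hDA hDf) (hDs.trans (ball_subset_ball hss1))
    obtain ⟨hp, hg⟩ := hcut V hV1 hV2 hV3
    rcases Nat.lt_or_ge i i₀ with hi | hi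
    · obtain ⟨V', h1, h2, h3, h4, h5, h6⟩ := hp
      refine hfin V' h1 h2 h3 h4 h5 (h6.trans ((add_le_add_left (hV5.trans h₀.len) C1).trans ?_))
      rw [hΛ]
      show ((min i i₀ + 1 : ℕ) : ENNReal) * C + C1 ≤ ((min (i + 1) i₀ + 1 : ℕ) : ENNReal) * C
      rw [min_eq_left hi.le, min_eq_left (Nat.succ_le_of_lt hi), Nat.cast_add (i + 1) 1, add_mul, Nat.cast_one,
        one_mul]
      gcongr
      rw [hC]
      exact le_self_add
    · obtain ⟨V', h1, h2, h3, h4, h5, h6⟩ := hg (by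
        intro y hy
        by_contra hno
        push Not at hno
        have h9 := near_fr hV1.op hy hno
        exact hi₀ (i + 1) (by omega) y fun j hj w hw => hstay j hj w (hVW' (h9 hw)))
      refine hfin V' h1 h2 h3 h4 h5 ((h6.trans (hV5.trans h₀.len)).trans (le_of_eq ?_))
      rw [hΛ]
      show ((min i i₀ + 1 : ℕ) : ENNReal) * C = ((min (i + 1) i₀ + 1 : ℕ) : ENNReal) * C
      rw [min_eq_right hi, min_eq_right (hi.trans (Nat.le_succ i))]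
  -- the sequence of windows
  obtain ⟨Good, hGood⟩ : ∃ Good : ℕ → (ℂ → Set ℂ × Set ℂ) → Prop,
      Good = fun i F => ∀ z ∈ Dm f P X i, St f P M N G ρ i (Λ i) z (F z).1 (F z).2 := ⟨_, rfl⟩
  obtain ⟨Lk, hLk⟩ : ∃ Lk : ℕ → (ℂ → Set ℂ × Set ℂ) → (ℂ → Set ℂ × Set ℂ) → Prop,
      Lk = fun i F F' => ∀ z ∈ Dm f P X (i + 1), InjOn f (F' z).1 ∧ ∀ D : Set ℂ, IsPreconnected D → z ∈ D →
        D ⊆ ball z s → (∀ w ∈ D, f w ∈ (F (f z)).1) → D ⊆ (F' z).1 := ⟨_, rfl⟩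
  have hGm : ∀ i F, Good i F ↔ ∀ z ∈ Dm f P X i, St f P M N G ρ i (Λ i) z (F z).1 (F z).2 := by
    intro i F
    rw [hGood]
  have hst : ∀ p : {p : ℕ × (ℂ → Set ℂ × Set ℂ) // Good p.1 p.2}, ∃ q : {p : ℕ × (ℂ → Set ℂ × Set ℂ) // Good p.1 p.2},
      q.1.1 = p.1.1 + 1 ∧ Lk p.1.1 p.1.2 q.1.2 := by
    rintro ⟨⟨i, F⟩, hF⟩
    rw [hGood] at hF
    have h1 : ∀ z, ∃ VW : Set ℂ × Set ℂ, z ∈ Dm f P X (i + 1) →
        St f P M N G ρ (i + 1) (Λ (i + 1)) z VW.1 VW.2 ∧ InjOn f VW.1 ∧ ∀ D : Set ℂ, IsPreconnected D → z ∈ D →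
          D ⊆ ball z s → (∀ w ∈ D, f w ∈ (F (f z)).1) → D ⊆ VW.1 := by
      intro z
      by_cases hz : z ∈ Dm f P X (i + 1)
      · obtain ⟨V, W, h2, h3, h4⟩ := hstep i z (dm_succ hz).1 _ _ (hF (f z) (dm_succ hz).2)
        exact ⟨(V, W), fun _ => ⟨h2, h3, h4⟩⟩
      · exact ⟨(∅, ∅), fun h => absurd h hz⟩
    choose F' hF' using h1
    refine ⟨⟨(i + 1, F'), ?_⟩, rfl, ?_⟩
    · rw [hGood]
      exact fun z hz => (hF' z hz).1
    · rw [hLk]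
      exact fun z hz => (hF' z hz).2
  choose nx hnx using hst
  have h0 : ∀ z, ∃ VW : Set ℂ × Set ℂ, z ∈ P \ X → St f P M N G ρ 0 (Λ 0) z VW.1 VW.2 ∧ ball z s ⊆ VW.1 := by
    intro z
    by_cases hz : z ∈ P \ X
    · obtain ⟨V, W, h2, h3⟩ := hstart z hz
      exact ⟨(V, W), fun _ => ⟨h2, h3⟩⟩
    · exact ⟨(∅, ∅), fun h => absurd h hz⟩
  choose F0 hF0 using h0
  have hG0 : Good 0 F0 := by
    rw [hGood]
    exact fun z hz => (hF0 z hz.2).1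
  obtain ⟨sq, hsq⟩ : ∃ sq : ℕ → {p : ℕ × (ℂ → Set ℂ × Set ℂ) // Good p.1 p.2},
      sq = fun n => nx^[n] ⟨(0, F0), hG0⟩ := ⟨_, rfl⟩
  have hsq0 : sq 0 = ⟨(0, F0), hG0⟩ := by rw [hsq]; rfl
  have hsq1 : ∀ n, sq (n + 1) = nx (sq n) := by
    intro n
    rw [hsq]
    exact Function.iterate_succ_apply' nx n _
  have hsqn : ∀ n, (sq n).1.1 = n := by
    intro n
    induction n with
    | zero => rw [hsq0]
    | succ n ih => rw [hsq1, (hnx (sq n)).1, ih]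
  have hgood : ∀ n, ∀ z ∈ Dm f P X n, St f P M N G ρ n (Λ n) z ((sq n).1.2 z).1 ((sq n).1.2 z).2 := by
    intro n
    have h1 := (sq n).2
    rw [hsqn n] at h1
    exact (hGm n _).1 h1
  have hlink : ∀ n, ∀ z ∈ Dm f P X (n + 1), InjOn f ((sq (n + 1)).1.2 z).1 ∧ ∀ D : Set ℂ, IsPreconnected D →
      z ∈ D → D ⊆ ball z s → (∀ w ∈ D, f w ∈ ((sq n).1.2 (f z)).1) → D ⊆ ((sq (n + 1)).1.2 z).1 := by
    intro n
    have h1 := (hnx (sq n)).2
    rw [hsqn n, hLk, ← hsq1] at h1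
    exact h1
  refine ⟨s, fun i z => ((sq i).1.2 z).1, hs0, ?_, ?_, ?_, ?_, ?_⟩
  · intro z hz
    obtain ⟨A, S, ⟨hAN, -⟩, -, -, -, -, -, hbA, -⟩ := hc1 z hz
    exact (ball_subset_ball hss1).trans (hbA.trans hAN)
  · intro z hz
    show ball z s ⊆ ((sq 0).1.2 z).1
    rw [hsq0]
    exact (hF0 z hz).2
  · intro i z hz
    exact ⟨(hgood (i + 1) z hz).wn.op, (hlink i z hz).1⟩
  · intro κ hκ
    obtain ⟨L, hL⟩ : ∃ L : ENNReal, L = ((i₀ + 1 : ℕ) : ENNReal) * C := ⟨_, rfl⟩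
    have hLt : L ≠ ⊤ := hL ▸ ENNReal.mul_ne_top (ENNReal.natCast_ne_top _) hCt
    obtain ⟨i₁, hi₁⟩ := resc2 hH (div_pos hκ (by positivity : 0 < 2 * Real.exp L.toReal))
    refine ⟨i₁, fun i hi z hz => ?_⟩
    have hS := hgood i z hz
    intro y hy
    by_contra hyb
    have hd : κ ≤ dist y z := by
      rw [mem_ball, not_lt] at hyb
      exact hyb
    have hl : len ρ ((sq i).1.2 z).1 ≤ ENNReal.ofReal L.toReal := by
      rw [ENNReal.ofReal_toReal hLt, hL]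
      exact hS.len.trans (hΛt i)
    have h6 := thick_ball hH.met hH.Pc.isClosed hS.wn (frontier_subset_closure.trans (hS.VW.trans hS.WG))
      (dm_P hH hz) hS.zV hl hy hS.zV
    refine hi₁ i hi z fun j hj w hw => hS.stay j hj w (hS.VW (subset_closure (h6 ?_)))
    refine ball_subset_ball ?_ hw
    gcongr
  · intro i z hz
    exact (hlink i z hz).2

end Pool.Agent.H39.EMB
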