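import Pool.Agent.H39.HO.CU

/-!
# Cuts of windows which do not change them near the point

`rcut_plain2`, `rcut_gain2`: the cuts of H39/HO/CU with one more conclusion: connected subsets of `V` which contain `x`
and stay near `Q` are in the new window.
-/

set_option autoImplicit false

open Filter Topology Metric Set MeasureTheory
open scoped MeasureTheory

namespace Pool.Agent.H39.EMB

open Pool.Agent.H56.TH Pool.Agent.H39.HO

theorem rcut_len2 {P Q V A O : Set ℂ} {ρ : ℂ → ENNReal} {d s h : ℝ} (hC : Col P Q d) (hM : Mt ρ P O)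
    (hO : ∀ w, infDist w Q ≤ 3 * d → w ∈ O) (hA : Full A) (hAQ : ∀ w, infDist w Q ≤ 3 * d → w ∈ A)
    (hV : RW P A V) {x : ℂ} (hx : x ∈ V) (hxQ : infDist x Q < d) (hh : 0 < h)
    (hs : d ≤ s) (hs2 : s + 3 * h ≤ 2 * d) :
    ∃ V' : Set ℂ, Wn P V' ∧ x ∈ V' ∧ V' ⊆ V ∧ V' ⊆ A ∧ frontier V' ⊆ A ∧
      (∀ C : Set ℂ, IsPreconnected C → x ∈ C → C ⊆ V → (∀ w ∈ C, infDist w Q < d) → C ⊆ V') ∧
      len ρ V' ≤ (∫⁻ w in frontier V ∩ {w | infDist w Q ≤ s + 3 * h}, ρ w ∂(μH[1] : Measure ℂ)) +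
        ENNReal.ofReal (32 / (d * h)) * volume (V ∩ lay Q s (s + 3 * h)) := by
  have hd := hC.d0
  have hLc := lay_closed Q s (s + 3 * h)
  have hAm : MeasurableSet (V ∩ lay Q s (s + 3 * h)) := hV.op.measurableSet.inter hLc.measurableSet
  have hAf : volume (V ∩ lay Q s (s + 3 * h)) ≠ ⊤ :=
    ((measure_mono fun w hw => (hw.2.2.trans hs2 : infDist w Q ≤ 2 * d)).trans_lt
      (col_vol hC (2 * d)).2).ne
  obtain ⟨a, b, hab⟩ := grid_shift hAm hAf hh
  obtain ⟨Y, hY⟩ : ∃ Y : Set ℂ,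
      Y = connectedComponentIn (V \ (grd a b h ∩ lay Q s (s + 3 * h))) x := ⟨_, rfl⟩
  obtain ⟨hYo, hYp, hxY, hYV, hlt, hfr⟩ := grid_cut hV.op hx hh (hxQ.trans_le hs) hY
  have hYA : Y ⊆ A := fun w hw => hAQ w (by have := hlt w hw; linarith)
  have hfYA : frontier Y ⊆ A := by
    intro w hw
    apply hAQ
    have h1 : w ∈ closure Y := frontier_subset_closure hw
    have h2 : closure Y ⊆ {w | infDist w Q ≤ s + 3 * h} :=
      closure_minimal (fun w hw => (hlt w hw).le) (isClosed_le (continuous_infDist_pt Q) continuous_const)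
    have h3 : infDist w Q ≤ s + 3 * h := h2 h1
    linarith
  have hfilA : fill Y ⊆ A := fill_sub hYA hA
  have hfilV : fill Y ⊆ V := by
    rintro w (hw | ⟨O', ⟨h1, h2, h3⟩, hw⟩)
    · exact hYV hw
    · have h4 : O' ⊆ A := hA O' h1 h2 (h3.trans hYA)
      have h5 : closure O' ⊆ A := by
        rw [closure_eq_self_union_frontier]
        exact union_subset h4 (h3.trans hYA)
      exact hV.fu O' h1 h2 h5 (h3.trans hYV) hw
  have hfr2 : frontier (fill Y) ⊆ (frontier V ∩ {w | infDist w Q ≤ s + 3 * h}) ∪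
      (V ∩ (grd a b h ∩ lay Q s (s + 3 * h))) := (fill_front hYo).trans hfr
  have hlay : ∀ w ∈ lay Q s (s + 3 * h), d ≤ infDist w Q ∧ infDist w Q ≤ 2 * d :=
    fun w hw => ⟨hs.trans hw.1, hw.2.trans hs2⟩
  refine ⟨fill Y, ⟨fill_open hYo, fill_pre hYo hYp, fill_full hYo, ?_⟩, sub_fill Y hxY,
    hfilV, hfilA, (fill_front hYo).trans hfYA, ?_, ?_⟩
  · rw [Set.disjoint_left]
    intro z hz hzP
    rcases hfr2 hz with h1 | h1
    · exact hV.fr z h1.1 (((fill_front hYo).trans hfYA) hz) hzP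
    · obtain ⟨e1, e2⟩ := hlay z h1.2.2
      exact (col_dist hC e1 e2).2.1 hzP
  · intro C hCp hxC hCV hCQ
    refine Set.Subset.trans ?_ (sub_fill Y)
    rw [hY]
    refine hCp.subset_connectedComponentIn hxC fun w hw => ⟨hCV hw, fun hw2 => ?_⟩
    have h1 := hCQ w hw
    have h2 := hw2.2.1
    linarith
  · have hS2 : V ∩ (grd a b h ∩ lay Q s (s + 3 * h)) =
        grd a b h ∩ (V ∩ lay Q s (s + 3 * h)) := by
      ext w
      simp only [Set.mem_inter_iff]
      tauto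
    have hm2 : MeasurableSet (grd a b h ∩ (V ∩ lay Q s (s + 3 * h))) :=
      (grd_closed a b hh).measurableSet.inter hAm
    have hρ : ∀ w ∈ grd a b h ∩ (V ∩ lay Q s (s + 3 * h)), ρ w ≤ ENNReal.ofReal (16 / d) := by
      intro w hw
      obtain ⟨e1, e2⟩ := hlay w hw.2.2
      refine hM.up w d hd (fun z hz => hO z ?_) (col_dist hC e1 e2).1
      have e3 := infDist_le_infDist_add_dist (s := Q) (x := z) (y := w)
      rw [mem_ball] at hz
      linarith
    have hnum : ENNReal.ofReal (32 / (d * h)) = ENNReal.ofReal (16 / d) * ENNReal.ofReal (2 / h) := by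
      rw [← ENNReal.ofReal_mul (by positivity)]
      congr 1
      field_simp
      norm_num
    calc len ρ (fill Y)
        ≤ ∫⁻ w in (frontier V ∩ {w | infDist w Q ≤ s + 3 * h}) ∪
            (grd a b h ∩ (V ∩ lay Q s (s + 3 * h))), ρ w ∂(μH[1] : Measure ℂ) := by
          unfold len
          rw [← hS2]
          exact lintegral_mono_set hfr2
      _ ≤ (∫⁻ w in frontier V ∩ {w | infDist w Q ≤ s + 3 * h}, ρ w ∂(μH[1] : Measure ℂ)) +
            ∫⁻ w in grd a b h ∩ (V ∩ lay Q s (s + 3 * h)), ρ w ∂(μH[1] : Measure ℂ) :=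
          lintegral_union_le _ _ _
      _ ≤ _ := by
          refine add_le_add le_rfl ?_
          calc ∫⁻ w in grd a b h ∩ (V ∩ lay Q s (s + 3 * h)), ρ w ∂(μH[1] : Measure ℂ)
              ≤ ∫⁻ _ in grd a b h ∩ (V ∩ lay Q s (s + 3 * h)), ENNReal.ofReal (16 / d)
                  ∂(μH[1] : Measure ℂ) := setLIntegral_mono' hm2 hρ
            _ = ENNReal.ofReal (16 / d) *
                  (μH[1] : Measure ℂ) (grd a b h ∩ (V ∩ lay Q s (s + 3 * h))) :=
                setLIntegral_const _ _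
            _ ≤ ENNReal.ofReal (16 / d) * (ENNReal.ofReal (2 / h) *
                  volume (V ∩ lay Q s (s + 3 * h))) := by gcongr
            _ = _ := by rw [hnum, mul_assoc]

theorem rcut_plain2 {P Q A O : Set ℂ} {ρ : ℂ → ENNReal} {d : ℝ} (hC : Col P Q d) (hM : Mt ρ P O)
    (hO : ∀ w, infDist w Q ≤ 3 * d → w ∈ O) (hA : Full A) (hAQ : ∀ w, infDist w Q ≤ 3 * d → w ∈ A) :
    ∃ C : ENNReal, C ≠ ⊤ ∧ ∀ (V : Set ℂ) (x : ℂ), RW P A V → x ∈ V → infDist x Q < d →
      ∃ V' : Set ℂ, Wn P V' ∧ x ∈ V' ∧ V' ⊆ V ∧ V' ⊆ A ∧ frontier V' ⊆ A ∧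
        (∀ C : Set ℂ, IsPreconnected C → x ∈ C → C ⊆ V → (∀ w ∈ C, infDist w Q < d) → C ⊆ V') ∧
        len ρ V' ≤ (∫⁻ w in frontier V ∩ {w | infDist w Q ≤ 2 * d}, ρ w ∂(μH[1] : Measure ℂ)) + C := by
  have hd := hC.d0
  refine ⟨ENNReal.ofReal (32 / (d * (d / 3))) * volume {w : ℂ | infDist w Q ≤ 2 * d},
    ENNReal.mul_ne_top ENNReal.ofReal_ne_top (col_vol hC (2 * d)).2.ne, fun V x hV hx hxQ => ?_⟩
  obtain ⟨V', h1, h2, h3, h4, h5, hloc, h6⟩ := rcut_len2 (s := d) (h := d / 3) hC hM hO hA hAQ hV hx hxQ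
    (by positivity) le_rfl (by linarith)
  refine ⟨V', h1, h2, h3, h4, h5, hloc, h6.trans ?_⟩
  refine add_le_add (lintegral_mono_set (inter_subset_inter_right _ fun w hw => ?_)) ?_
  · have h7 : infDist w Q ≤ d + 3 * (d / 3) := hw
    show infDist w Q ≤ 2 * d
    linarith
  · refine mul_le_mul_right ?_ _
    refine measure_mono fun w hw => ?_
    have := hw.2.2
    show infDist w Q ≤ 2 * d
    linarith

/-- the choice of the number of layers -/
private theorem exK (M : ℝ) {c : ℝ} (hc : 0 < c) : ∃ K : ℕ, 1 ≤ K ∧ M < 2 ^ (K - 1) * (c / K) := by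
  obtain ⟨j, hj⟩ := exists_nat_gt (2 * M / c)
  refine ⟨2 * j + 1, by omega, ?_⟩
  have h1 : ((j : ℝ) + 1) ≤ 2 ^ j := by
    exact_mod_cast Nat.lt_two_pow_self (n := j)
  have h2 : ((j : ℝ) + 1) ^ 2 ≤ 2 ^ (2 * j) := by
    rw [mul_comm 2 j, pow_mul]
    exact pow_le_pow_left₀ (by positivity) h1 2
  have h3 : M < (j : ℝ) * c / 2 := by
    rw [div_lt_iff₀ hc] at hj
    linarith
  have h4 : (2 * j + 1 - 1 : ℕ) = 2 * j := by omega
  rw [h4]
  have hK : (0 : ℝ) < ((2 * j + 1 : ℕ) : ℝ) := by positivity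
  have h5 : ((2 * j + 1 : ℕ) : ℝ) ≤ 2 * ((j : ℝ) + 1) := by
    push_cast
    linarith
  have h6 : ((j : ℝ) + 1) * c / 2 ≤ ((j : ℝ) + 1) ^ 2 * (c / ((2 * j + 1 : ℕ) : ℝ)) := by
    rw [← mul_div_assoc, div_le_div_iff₀ (by norm_num) hK]
    have h7 : ((j : ℝ) + 1) * c * ((2 * j + 1 : ℕ) : ℝ) ≤ ((j : ℝ) + 1) * c * (2 * ((j : ℝ) + 1)) :=
      mul_le_mul_of_nonneg_left h5 (by positivity)
    nlinarith
  have h8 : ((j : ℝ) + 1) ^ 2 * (c / ((2 * j + 1 : ℕ) : ℝ)) ≤
      2 ^ (2 * j) * (c / ((2 * j + 1 : ℕ) : ℝ)) :=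
    mul_le_mul_of_nonneg_right h2 (by positivity)
  have h9 : (0 : ℝ) < c / 2 := by positivity
  nlinarith

theorem rcut_gain2 {P Q A O : Set ℂ} {ρ : ℂ → ENNReal} {d : ℝ} (hC : Col P Q d) (hM : Mt ρ P O)
    (hO : ∀ w, infDist w Q ≤ 3 * d → w ∈ O) (hA : Full A) (hAQ : ∀ w, infDist w Q ≤ 3 * d → w ∈ A) :
    ∃ η : ℝ, 0 < η ∧ ∀ (V : Set ℂ) (x : ℂ), RW P A V → x ∈ V → infDist x Q < d →
      (∃ y ∈ V, 2 * d ≤ infDist y Q) → (∀ z ∈ V, ∃ b ∈ frontier V, dist z b < η) →
      ∃ V' : Set ℂ, Wn P V' ∧ x ∈ V' ∧ V' ⊆ V ∧ V' ⊆ A ∧ frontier V' ⊆ A ∧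
        (∀ C : Set ℂ, IsPreconnected C → x ∈ C → C ⊆ V → (∀ w ∈ C, infDist w Q < d) → C ⊆ V') ∧
        len ρ V' ≤ ∫⁻ w in frontier V ∩ {w | infDist w Q ≤ 2 * d}, ρ w ∂(μH[1] : Measure ℂ) := by
  have hd := hC.d0
  have hvol := (col_vol hC (2 * d)).2
  obtain ⟨K, hK1, hK⟩ := exK (volume {w : ℂ | infDist w Q ≤ 2 * d}).toReal
    (c := d ^ 2 / 4096) (by positivity)
  have hK0 : (0 : ℝ) < (K : ℝ) := by exact_mod_cast hK1
  obtain ⟨h, hh⟩ : ∃ h : ℝ, h = d / (8 * K) := ⟨_, rfl⟩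
  have hh0 : 0 < h := by
    rw [hh]
    positivity
  have hKh : 8 * (K : ℝ) * h = d := by
    rw [hh]
    field_simp
  have hK1' : (1 : ℝ) ≤ K := by exact_mod_cast hK1
  have hhd : 8 * h ≤ d := by nlinarith
  refine ⟨h / 5120, by positivity, fun V x hV hx hxQ hy hn => ?_⟩
  obtain ⟨y, hy, hyQ⟩ := hy
  obtain ⟨s, hs⟩ : ∃ s : ℕ → ℝ, s = fun k : ℕ => d + 4 * h * (k : ℝ) := ⟨_, rfl⟩
  have hsd : ∀ k, d ≤ s k := fun k => by
    rw [hs]
    have : 0 ≤ 4 * h * (k : ℝ) := by positivity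
    show d ≤ d + 4 * h * k
    linarith
  have hs1 : ∀ k, s (k + 1) = s k + 4 * h := fun k => by
    rw [hs]
    show d + 4 * h * ((k + 1 : ℕ) : ℝ) = d + 4 * h * k + 4 * h
    push_cast
    ring
  have hsK : ∀ k < K, s k + 4 * h ≤ 3 / 2 * d := fun k hk => by
    rw [← hs1 k, hs]
    show d + 4 * h * ((k + 1 : ℕ) : ℝ) ≤ 3 / 2 * d
    have h1 : ((k + 1 : ℕ) : ℝ) ≤ K := by exact_mod_cast hk
    have h2 : 4 * h * ((k + 1 : ℕ) : ℝ) ≤ 4 * h * K := mul_le_mul_of_nonneg_left h1 (by positivity)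
    linarith
  by_cases hex : ∃ k < K, ENNReal.ofReal (32 / (d * h)) * volume (V ∩ lay Q (s k) (s k + 3 * h)) ≤
      ∫⁻ w in frontier V ∩ {w | s k + 3 * h < infDist w Q ∧ infDist w Q < 2 * d}, ρ w
        ∂(μH[1] : Measure ℂ)
  · obtain ⟨k, hk, hle⟩ := hex
    have hk2 := hsK k hk
    obtain ⟨V', h1, h2, h3, h4, h5, hloc, h6⟩ := rcut_len2 (s := s k) (h := h) hC hM hO hA hAQ hV hx hxQ
      hh0 (hsd k) (by linarith)
    refine ⟨V', h1, h2, h3, h4, h5, hloc, h6.trans ((add_le_add_right hle _).trans ?_)⟩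
    have hmeas : MeasurableSet (frontier V ∩
        {w | s k + 3 * h < infDist w Q ∧ infDist w Q < 2 * d}) := by
      refine isClosed_frontier.measurableSet.inter ?_
      exact ((isOpen_lt continuous_const (continuous_infDist_pt Q)).inter
        (isOpen_lt (continuous_infDist_pt Q) continuous_const)).measurableSet
    rw [← lintegral_union hmeas]
    · refine lintegral_mono_set ?_
      refine union_subset (inter_subset_inter_right _ fun w hw => ?_) (inter_subset_inter_right _ fun w hw => ?_)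
      · have h7 : infDist w Q ≤ s k + 3 * h := hw
        show infDist w Q ≤ 2 * d
        linarith
      · exact hw.2.le
    · rw [Set.disjoint_left]
      rintro w ⟨-, hw1⟩ ⟨-, hw2⟩
      exact absurd hw2.1 (not_lt.2 hw1)
  · exfalso
    push Not at hex
    obtain ⟨v, hv⟩ : ∃ v : ℕ → ENNReal, v = fun k => volume (V ∩ lay Q (s k) (s k + 3 * h)) := ⟨_, rfl⟩
    obtain ⟨a, ha⟩ : ∃ a : ℕ → ENNReal,
      a = fun k => volume (V ∩ {w | s k ≤ infDist w Q ∧ infDist w Q ≤ 7 / 4 * d}) := ⟨_, rfl⟩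
    have hηd : h / 5120 ≤ d / 16 := by linarith
    -- the length outside
    have hR : ∀ k < K, ENNReal.ofReal (1 / 16) ≤
        ∫⁻ w in frontier V ∩ {w | s k + 3 * h < infDist w Q ∧ infDist w Q < 2 * d}, ρ w
          ∂(μH[1] : Measure ℂ) := by
      intro k hk
      refine (rright_low hC hM hO hAQ hV hx hxQ hy hyQ hηd hn).trans (lintegral_mono_set ?_)
      rintro w ⟨hw1, hw2, hw3⟩
      have := hsK k hk
      exact ⟨hw1, by linarith, hw3⟩
    -- the area
    have hav : ∀ k < K, a (k + 1) ≤ v k := by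
      intro k hk
      have h1 := rvol_thin (t := s k + 3 * h) hC hM hO hAQ hV hx hxQ (η := h / 5120) (by positivity) hηd
        (by have := hsd k; linarith) hn
      have h2 : a (k + 1) ≤ volume (V ∩ {w | s k + 3 * h + 3 * (h / 5120) ≤ infDist w Q ∧
          infDist w Q ≤ 7 / 4 * d}) := by
        rw [ha]
        refine measure_mono ?_
        rintro w ⟨hw1, hw2, hw3⟩
        have := hs1 k
        exact ⟨hw1, by linarith, hw3⟩
      refine (h2.trans h1).trans ?_
      refine (mul_le_mul_right (hex k hk).le _).trans ?_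
      rw [← mul_assoc, ← ENNReal.ofReal_mul (by positivity)]
      have h3 : 160 * (h / 5120) * d * (32 / (d * h)) = 1 := by
        field_simp
        norm_num
      rw [h3, ENNReal.ofReal_one, one_mul, hv]
    have hadd : ∀ k < K, v k + a (k + 1) ≤ a k := by
      intro k hk
      have h1 := hsK k hk
      have h2 := hs1 k
      have hm : MeasurableSet (V ∩ {w | s (k + 1) ≤ infDist w Q ∧ infDist w Q ≤ 7 / 4 * d}) := by
        refine hV.op.measurableSet.inter ?_
        exact ((isClosed_le continuous_const (continuous_infDist_pt Q)).inter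
          (isClosed_le (continuous_infDist_pt Q) continuous_const)).measurableSet
      rw [hv, ha]
      show volume (V ∩ lay Q (s k) (s k + 3 * h)) +
        volume (V ∩ {w | s (k + 1) ≤ infDist w Q ∧ infDist w Q ≤ 7 / 4 * d}) ≤
        volume (V ∩ {w | s k ≤ infDist w Q ∧ infDist w Q ≤ 7 / 4 * d})
      rw [← measure_union _ hm]
      · refine measure_mono ?_
        rintro w (⟨hw1, hw2, hw3⟩ | ⟨hw1, hw2, hw3⟩)
        · exact ⟨hw1, hw2, by linarith⟩
        · exact ⟨hw1, by linarith, hw3⟩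
      · rw [Set.disjoint_left]
        rintro w ⟨-, hw1⟩ ⟨-, hw2⟩
        have h3 := hw1.2
        have h4 := hw2.1
        linarith
    have hvlow : ENNReal.ofReal (d ^ 2 / 4096 / K) ≤ v (K - 1) := by
      have hk : K - 1 < K := by omega
      have h1 := (hR (K - 1) hk).trans (hex (K - 1) hk).le
      have h2 : ENNReal.ofReal (d ^ 2 / 4096 / K) =
          ENNReal.ofReal (d * h / 32) * ENNReal.ofReal (1 / 16) := by
        rw [← ENNReal.ofReal_mul (by positivity)]
        congr 1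
        rw [hh]
        field_simp
        norm_num
      have h3 : ENNReal.ofReal (d * h / 32) * ENNReal.ofReal (32 / (d * h)) = 1 := by
        rw [← ENNReal.ofReal_mul (by positivity)]
        have h4 : d * h / 32 * (32 / (d * h)) = 1 := by
          field_simp
        rw [h4, ENNReal.ofReal_one]
      rw [h2]
      refine (mul_le_mul_right h1 _).trans ?_
      rw [← mul_assoc, h3, one_mul, hv]
    have hind : ∀ j : ℕ, j < K → 2 ^ j * ENNReal.ofReal (d ^ 2 / 4096 / K) ≤ a (K - 1 - j) := by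
      intro j
      induction j with
      | zero =>
        intro _
        rw [pow_zero, one_mul]
        exact hvlow.trans (le_self_add.trans (hadd (K - 1) (by omega)))
      | succ j ih =>
        intro hj
        have h1 := ih (by omega)
        have h2 : K - 1 - (j + 1) + 1 = K - 1 - j := by omega
        have h3 := hadd (K - 1 - (j + 1)) (by omega)
        have h4 := hav (K - 1 - (j + 1)) (by omega)
        rw [h2] at h3 h4
        rw [pow_succ, mul_comm (2 ^ j) 2, mul_assoc, two_mul]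
        exact (add_le_add (h1.trans h4) h1).trans h3
    have h1 := hind (K - 1) (by omega)
    rw [Nat.sub_self] at h1
    have h2 : a 0 ≤ volume {w : ℂ | infDist w Q ≤ 2 * d} := by
      rw [ha]
      refine measure_mono ?_
      rintro w ⟨-, -, hw3⟩
      show infDist w Q ≤ 2 * d
      linarith
    have h3 := h1.trans h2
    have h4 : (2 : ENNReal) ^ (K - 1) * ENNReal.ofReal (d ^ 2 / 4096 / K) =
        ENNReal.ofReal (2 ^ (K - 1) * (d ^ 2 / 4096 / K)) := by
      rw [ENNReal.ofReal_mul (by positivity), ENNReal.ofReal_pow (by norm_num)]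
      norm_num
    rw [h4, ENNReal.ofReal_le_iff_le_toReal hvol.ne] at h3
    linarith

end Pool.Agent.H39.EMB
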