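import Pool.Agent.H39.HO.NP

/-!
# Decomposition into minimal sets

`MinSet f M`: `M` is a minimal set. `DEC f`: every critical point `c` of the Julia set lies in its own limit set `Om f c`,
which is minimal; the post-critical set is the union of these sets; two of them are equal or disjoint; the limit set of
every orbit which tends to the post-critical set is one of them. `dec_of`: this follows if every critical point `c` of the
Julia set is in all nonempty closed invariant subsets of `Om f c`.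
-/

set_option autoImplicit false

open Filter Topology Polynomial Metric Set MeasureTheory

namespace Pool.Agent.H39.EMB

open Pool.Agent.H32.BT Pool.Agent.H79.Par
open Pool.Agent.H35.EX Pool.Agent.H44.RC
open Pool.Agent.H44.RR (chord_zero)
open Pool.Agent.H64.JS (KJ kj_inv it_mem)

/-- minimal sets -/
structure MinSet (f : OnePoint ℂ → OnePoint ℂ) (M : Set (OnePoint ℂ)) : Prop where
  cl : IsClosed M
  ne : M.Nonempty
  inv : ∀ x ∈ M, f x ∈ M
  min : ∀ L ⊆ M, IsClosed L → L.Nonempty → (∀ x ∈ L, f x ∈ L) → L = M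

/-- decomposition of the post-critical set into minimal sets -/
structure DEC (f : OnePoint ℂ → OnePoint ℂ) : Prop where
  own : ∀ c, IsCrit f c → c ∈ JS f → c ∈ Om f c
  min : ∀ c, IsCrit f c → c ∈ JS f → MinSet f (Om f c)
  dec : KJ {c | IsCrit f c} (JS f) f = ⋃ c ∈ {c | IsCrit f c ∧ c ∈ JS f}, Om f c
  eqd : ∀ c c', IsCrit f c → c ∈ JS f → IsCrit f c' → c' ∈ JS f → Om f c = Om f c' ∨ Disjoint (Om f c) (Om f c')
  typ : ∀ z, (∀ ε : ℝ, 0 < ε → ∃ N : ℕ, ∀ n ≥ N, ∃ x ∈ KJ {c | IsCrit f c} (JS f) f, chord (f^[n] z) x < ε) →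
    ∃ c, IsCrit f c ∧ c ∈ JS f ∧ Om f z = Om f c

variable {f : OnePoint ℂ → OnePoint ℂ}

theorem om_closed (x : OnePoint ℂ) : IsClosed (Om f x) := by
  rw [← isOpen_compl_iff, isOpen_iff_mem_nhds]
  intro y hy
  rw [mem_compl_iff] at hy
  have h1 : ∃ U ∈ 𝓝 y, ¬ ∃ᶠ n : ℕ in atTop, f^[n] x ∈ U := by
    by_contra hcon
    push Not at hcon
    exact hy hcon
  obtain ⟨U, hU, h2⟩ := h1
  obtain ⟨V, hVU, hVo, hyV⟩ := _root_.mem_nhds_iff.1 hU
  filter_upwards [hVo.mem_nhds hyV] with w hw hwO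
  exact h2 ((hwO V (hVo.mem_nhds hw)).mono fun n hn => hVU hn)

theorem om_inv (hf : Continuous f) {x : OnePoint ℂ} : ∀ y ∈ Om f x, f y ∈ Om f x := by
  intro y hy U hU
  have h1 := hy (f ⁻¹' U) (hf.continuousAt hU)
  rw [frequently_atTop] at h1 ⊢
  intro a
  obtain ⟨b, hb, h2⟩ := h1 a
  refine ⟨b + 1, by omega, ?_⟩
  rw [Function.iterate_succ_apply']
  exact h2

theorem om_nonempty (x : OnePoint ℂ) : (Om f x).Nonempty := by
  by_contra hne
  rw [not_nonempty_iff_eq_empty] at hne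
  have h1 : ∀ y : OnePoint ℂ, ∃ U ∈ 𝓝 y, ¬ ∃ᶠ n : ℕ in atTop, f^[n] x ∈ U := by
    intro y
    by_contra hcon
    push Not at hcon
    have h2 : y ∈ Om f x := hcon
    rw [hne] at h2
    exact h2
  choose U hU hUn using h1
  obtain ⟨t, ht⟩ := isCompact_univ.elim_nhds_subcover U (fun y _ => hU y)
  have h2 : ∀ᶠ n : ℕ in atTop, ∀ y ∈ t, f^[n] x ∉ U y := by
    rw [Filter.eventually_all_finset]
    intro y _
    exact not_frequently.1 (hUn y)
  obtain ⟨n, hn⟩ := h2.exists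
  obtain ⟨y, hy, h3⟩ := mem_iUnion₂.1 (ht.2 (mem_univ (f^[n] x)))
  exact hn y hy h3

theorem om_sub1 {K : Set (OnePoint ℂ)} (hK : IsClosed K) {x : OnePoint ℂ}
    (hx : ∀ᶠ n : ℕ in atTop, f^[n] x ∈ K) : Om f x ⊆ K := by
  intro y hy
  by_contra hyK
  obtain ⟨n, hn, h2⟩ := ((hy Kᶜ (hK.isOpen_compl.mem_nhds hyK)).and_eventually hx).exists
  exact hn h2

/-- neighbourhoods of compact sets -/
theorem near_cpt {K W : Set (OnePoint ℂ)} (hK : IsClosed K) (hW : IsOpen W) (hKW : K ⊆ W) :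
    ∃ ε : ℝ, 0 < ε ∧ ∀ y, (∃ x ∈ K, chord y x < ε) → y ∈ W := by
  classical
  obtain ⟨δ, hδ, h1⟩ := ch_leb (U := fun x => if x ∈ K then W else Kᶜ) (by
    intro x
    by_cases hx : x ∈ K
    · simp only [hx, if_true]
      exact hW.mem_nhds (hKW hx)
    · simp only [hx, if_false]
      exact hK.isOpen_compl.mem_nhds hx)
  refine ⟨δ, hδ, ?_⟩
  rintro y ⟨x', hx', hyx⟩
  obtain ⟨x, hx⟩ := h1 y
  by_cases hxK : x ∈ K
  · simp only [hxK, if_true] at hx
    exact hx (show chord y y < δ by rw [chord_zero]; exact hδ)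
  · simp only [hxK, if_false] at hx
    exact absurd hx' (hx hyx)

theorem dec_of (hf : Continuous f) (hfin : {c | IsCrit f c}.Finite)
    (hown : ∀ c, IsCrit f c → c ∈ JS f → c ∈ Om f c)
    (hmm : ∀ c, IsCrit f c → c ∈ JS f → ∀ M ⊆ Om f c, IsClosed M → M.Nonempty → (∀ x ∈ M, f x ∈ M) → c ∈ M) :
    DEC f := by
  obtain ⟨K, hK⟩ : ∃ K, K = KJ {c | IsCrit f c} (JS f) f := ⟨_, rfl⟩
  have hKc : IsClosed K := hK ▸ isClosed_closure
  have hKf : ∀ x ∈ K, f x ∈ K := hK ▸ kj_inv hf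
  have hcK : ∀ c, IsCrit f c → c ∈ JS f → Om f c ⊆ K := by
    intro c hc hcJ
    refine om_sub1 hKc ?_
    filter_upwards [eventually_ge_atTop 1] with n hn
    rw [hK]
    exact subset_closure ⟨c, hc, hcJ, n, hn, rfl⟩
  have hmin : ∀ c, IsCrit f c → c ∈ JS f → MinSet f (Om f c) := by
    intro c hc hcJ
    refine ⟨om_closed c, ⟨c, hown c hc hcJ⟩, om_inv hf, fun L hL hLc hLn hLf => Subset.antisymm hL ?_⟩
    have hcL := hmm c hc hcJ L hL hLc hLn hLf
    exact om_sub1 hLc (Eventually.of_forall fun n => it_mem hLf hcL n)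
  have hCfin : {c | IsCrit f c ∧ c ∈ JS f}.Finite := hfin.subset fun c hc => hc.1
  have hdec : K = ⋃ c ∈ {c | IsCrit f c ∧ c ∈ JS f}, Om f c := by
    refine Subset.antisymm ?_ (iUnion₂_subset fun c hc => hcK c hc.1 hc.2)
    rw [hK]
    refine closure_minimal ?_ (hCfin.isClosed_biUnion fun c _ => om_closed c)
    rintro y ⟨c, hc, hcJ, n, -, rfl⟩
    exact mem_biUnion (show c ∈ {c | IsCrit f c ∧ c ∈ JS f} from ⟨hc, hcJ⟩) (it_mem (om_inv hf) (hown c hc hcJ) n)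
  have heqd : ∀ c c', IsCrit f c → c ∈ JS f → IsCrit f c' → c' ∈ JS f →
      Om f c = Om f c' ∨ Disjoint (Om f c) (Om f c') := by
    intro c c' hc hcJ hc' hcJ'
    by_cases hne : (Om f c ∩ Om f c').Nonempty
    · left
      have hcl : IsClosed (Om f c ∩ Om f c') := (om_closed c).inter (om_closed c')
      have hinv : ∀ x ∈ Om f c ∩ Om f c', f x ∈ Om f c ∩ Om f c' :=
        fun x hx => ⟨om_inv hf x hx.1, om_inv hf x hx.2⟩
      rw [← (hmin c hc hcJ).min _ inter_subset_left hcl hne hinv,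
        (hmin c' hc' hcJ').min _ inter_subset_right hcl hne hinv]
    · right
      rw [Set.disjoint_iff_inter_eq_empty]
      exact not_nonempty_iff_eq_empty.1 hne
  refine ⟨hown, hmin, hK ▸ hdec, heqd, ?_⟩
  intro z hz
  rw [← hK] at hz
  have hzK : Om f z ⊆ K := by
    intro y hy
    by_contra hyK
    obtain ⟨r, hr, hrK⟩ := ch_nhds (hKc.isOpen_compl.mem_nhds hyK)
    obtain ⟨N, hN⟩ := hz (r / 2) (by linarith)
    obtain ⟨n, hn, hnN⟩ := ((hy {w | chord y w < r / 2} ((ch_ball y (r / 2)).mem_nhds (by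
      show chord y y < r / 2
      rw [chord_zero]
      linarith))).and_eventually (eventually_ge_atTop N)).exists
    obtain ⟨x, hx, hxn⟩ := hN n hnN
    have h1 : chord y (f^[n] z) < r / 2 := hn
    have h2 : chord y x < r := by linarith [ch_tri y (f^[n] z) x]
    exact hrK h2 hx
  obtain ⟨y0, hy0⟩ := om_nonempty (f := f) z
  have h1 : y0 ∈ ⋃ c ∈ {c | IsCrit f c ∧ c ∈ JS f}, Om f c := hdec ▸ hzK hy0
  obtain ⟨c, ⟨hc, hcJ⟩, hyc⟩ := mem_iUnion₂.1 h1
  refine ⟨c, hc, hcJ, ?_⟩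
  have hsub : Om f c ⊆ Om f z := by
    have h2 := (hmin c hc hcJ).min (Om f z ∩ Om f c) inter_subset_right ((om_closed z).inter (om_closed c))
      ⟨y0, hy0, hyc⟩ fun x hx => ⟨om_inv hf x hx.1, om_inv hf x hx.2⟩
    rw [← h2]
    exact inter_subset_left
  refine Subset.antisymm ?_ hsub
  -- the other pieces
  obtain ⟨B, hB⟩ : ∃ B, B = ⋃ c' ∈ {c' | (IsCrit f c' ∧ c' ∈ JS f) ∧ Disjoint (Om f c) (Om f c')}, Om f c' := ⟨_, rfl⟩
  have hBc : IsClosed B := by
    rw [hB]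
    exact (hCfin.subset fun c' hc' => hc'.1).isClosed_biUnion fun c' _ => om_closed c'
  have hBf : ∀ x ∈ B, f x ∈ B := by
    intro x hx
    rw [hB] at hx ⊢
    obtain ⟨c', hc', hxc⟩ := mem_iUnion₂.1 hx
    exact mem_biUnion hc' (om_inv hf x hxc)
  have hAB : Disjoint (Om f c) B := by
    rw [hB, Set.disjoint_left]
    intro x hx hxB
    obtain ⟨c', hc', hxc⟩ := mem_iUnion₂.1 hxB
    exact Set.disjoint_left.1 hc'.2 hx hxc
  have hKAB : K ⊆ Om f c ∪ B := by
    intro x hx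
    rw [hdec] at hx
    obtain ⟨c', ⟨hc', hcJ'⟩, hxc⟩ := mem_iUnion₂.1 hx
    rcases heqd c c' hc hcJ hc' hcJ' with h2 | h2
    · exact Or.inl (h2 ▸ hxc)
    · right
      rw [hB]
      exact mem_biUnion (show c' ∈ {c' | (IsCrit f c' ∧ c' ∈ JS f) ∧ Disjoint (Om f c) (Om f c')} from
        ⟨⟨hc', hcJ'⟩, h2⟩) hxc
  obtain ⟨UA, UB, hUA, hUB, hAU, hBU, hUd⟩ := SeparatedNhds.of_isCompact_isCompact (om_closed c).isCompact hBc.isCompact hAB
  obtain ⟨WA, hWA⟩ : ∃ WA, WA = UA ∩ f ⁻¹' UA := ⟨_, rfl⟩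
  obtain ⟨WB, hWB⟩ : ∃ WB, WB = UB ∩ f ⁻¹' UB := ⟨_, rfl⟩
  have hWAo : IsOpen WA := hWA ▸ hUA.inter (hUA.preimage hf)
  have hWBo : IsOpen WB := hWB ▸ hUB.inter (hUB.preimage hf)
  have hAW : Om f c ⊆ WA := fun x hx => hWA ▸ ⟨hAU hx, hAU (om_inv hf x hx)⟩
  have hBW : B ⊆ WB := fun x hx => hWB ▸ ⟨hBU hx, hBU (hBf x hx)⟩
  obtain ⟨ε, hε, hnear⟩ := near_cpt hKc (hWAo.union hWBo) (hKAB.trans (union_subset_union hAW hBW))
  obtain ⟨N, hN⟩ := hz ε hε
  have hev : ∀ n ≥ N, f^[n] z ∈ WA ∪ WB := fun n hn => hnear _ (hN n hn)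
  have hstep : ∀ n ≥ N, f^[n] z ∈ WA → f^[n + 1] z ∈ WA := by
    intro n hn h2
    rw [hWA] at h2
    have h3 : f^[n + 1] z ∈ UA := by
      rw [Function.iterate_succ_apply']
      exact h2.2
    rcases hev (n + 1) (by omega) with h4 | h4
    · exact h4
    · rw [hWB] at h4
      exact absurd h4.1 (Set.disjoint_left.1 hUd h3)
  obtain ⟨n0, hn0, hn0N⟩ := ((hsub (hown c hc hcJ) WA (hWAo.mem_nhds (hAW (hown c hc hcJ)))).and_eventually
    (eventually_ge_atTop N)).exists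
  have hall : ∀ k, f^[n0 + k] z ∈ WA := by
    intro k
    induction k with
    | zero => exact hn0
    | succ k ih => exact hstep (n0 + k) (by omega) ih
  intro y hy
  have h2 : y ∉ B := by
    intro hyB
    obtain ⟨n, hn, hn'⟩ := ((hy UB (hUB.mem_nhds (hBU hyB))).and_eventually (eventually_ge_atTop n0)).exists
    have h3 := hall (n - n0)
    rw [Nat.add_sub_cancel' hn', hWA] at h3
    exact Set.disjoint_left.1 hUd h3.1 hn
  rcases hKAB (hzK hy) with h3 | h3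
  · exact h3
  · exact absurd h3 h2

end Pool.Agent.H39.EMB
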