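import Pool.Agent.H39.EMB.Cut
import Pool.Agent.H39.HO.MR

/-!
# Pull backs along orbits which leave a neighbourhood of an invariant set: the planar setting

`EW`: `X` is a clopen piece of the totally disconnected post-critical set `P`, `M ⊆ X` is closed and mapped into itself
and contains the critical points near `X`; `f` is injective on connected subsets of small discs around points of `X`
whose image is in a simply connected domain off `M`. `rcol2`: collars with uniform constants. See think 1880 (0), 1789.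
-/

set_option autoImplicit false

open Filter Topology Metric Set MeasureTheory
open scoped MeasureTheory

namespace Pool.Agent.H39.EMB

open Pool.Agent.H56.TH Pool.Agent.H39.HO

/-- `f` is injective on connected subsets of `A` whose image is in a simply connected domain off `M` -/
def Brn (f : ℂ → ℂ) (M A : Set ℂ) : Prop :=
  ∀ W V : Set ℂ, IsOpen W → IsPreconnected W → Bornology.IsBounded W → Full W → Disjoint W M → IsPreconnected V →
    V ⊆ A → (∀ w ∈ V, f w ∈ W) → InjOn f V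

/-- the setting -/
structure EW (f : ℂ → ℂ) (P X M N G : Set ℂ) (ρ : ℂ → ENNReal) : Prop where
  No : IsOpen N
  Go : IsOpen G
  Gb : Bornology.IsBounded G
  NG : N ⊆ G
  PG : P ⊆ G
  Pc : IsCompact P
  Xc : IsCompact X
  Zc : IsCompact (P \ X)
  XP : X ⊆ P
  Mc : IsClosed M
  MX : M ⊆ X
  Mf : ∀ z ∈ M, f z ∈ M
  Pf : ∀ z ∈ P, f z ∈ P
  fd : DifferentiableOn ℂ f N
  om : ∀ O ⊆ N, IsOpen O → IsOpen (f '' O)
  col : ∀ z ∈ P, ∀ κ : ℝ, 0 < κ → ∃ Q : Set ℂ, z ∈ Q ∧ Q ⊆ P ∧ Q ⊆ ball z κ ∧ IsCompact Q ∧ IsClosed (P \ Q)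
  ch : ∀ z ∈ X, ∃ r : ℝ, 0 < r ∧ ball z r ⊆ N ∧ Brn f M (ball z r)
  met : Mt ρ P G
  ct : ∀ w ∈ N, deriv f w ≠ 0 → ρ w ≤ ρ (f w) * ENNReal.ofReal ‖deriv f w‖
  esc : ∀ O : Set ℂ, IsOpen O → O.Nonempty → ∃ j : ℕ, ∃ w ∈ O, f^[j] w ∉ N

/-- a collar in the chart -/
private theorem col_in {A Q P : Set ℂ} (hAo : IsOpen A) (hQA : Q ⊆ A) (hQP : Q ⊆ P) (hQn : Q.Nonempty)
    (hQc : IsCompact Q) (hcl : IsClosed (P \ Q)) :
    ∃ d : ℝ, Col P Q d ∧ (∀ w, infDist w Q ≤ 3 * d → w ∈ A) := by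
  obtain ⟨r, hr0, hr⟩ := Metric.exists_pos_forall_lt_edist hQc hcl
    (Set.disjoint_left.2 fun x hx hx' => hx'.2 hx)
  obtain ⟨e, he, heA⟩ := hQc.exists_cthickening_subset_open hAo hQA
  refine ⟨min (e / 3) ((r : ℝ) / 4), ⟨?_, hQc, hQn, hQP, ?_⟩, ?_⟩
  · exact lt_min (by positivity) (by
      have : (0 : ℝ) < r := by exact_mod_cast hr0
      positivity)
  · intro p hp hpQ q hq
    have h1 := hr q hq p ⟨hp, hpQ⟩
    rw [edist_comm, edist_nndist] at h1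
    have h2 : (r : NNReal) < nndist p q := by exact_mod_cast h1
    have h3 : (r : ℝ) < dist p q := by
      rw [← coe_nndist]
      exact_mod_cast h2
    have h4 := min_le_right (e / 3) ((r : ℝ) / 4)
    linarith
  · intro w hw
    apply heA
    obtain ⟨q, hq, hqd⟩ := hQc.exists_infDist_eq_dist hQn w
    refine mem_cthickening_of_dist_le w q e Q hq ?_
    rw [← hqd]
    have h4 := min_le_left (e / 3) ((r : ℝ) / 4)
    linarith

theorem rcol2 {P G Y : Set ℂ} {ρ : ℂ → ENNReal} (hM : Mt ρ P G) (hY : IsCompact Y) {Φ : Set ℂ → Prop}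
    (hch : ∀ z ∈ Y, ∃ A Q : Set ℂ, Φ A ∧ IsOpen A ∧ Full A ∧ A ⊆ G ∧ z ∈ Q ∧ Q ⊆ A ∧ Q ⊆ P ∧ IsCompact Q ∧
      IsClosed (P \ Q)) :
    ∃ (C : ENNReal) (η s : ℝ), C ≠ ⊤ ∧ 0 < η ∧ 0 < s ∧ ∀ z ∈ Y, ∃ A S : Set ℂ, Φ A ∧ IsOpen A ∧ Full A ∧ A ⊆ G ∧
      IsCompact S ∧ S ⊆ A ∧ ball z s ⊆ A ∧ ∀ V : Set ℂ, RW P A V → V ⊆ A → z ∈ V →
        (∃ V' : Set ℂ, Wn P V' ∧ z ∈ V' ∧ V' ⊆ V ∧ frontier V' ⊆ A ∧
          (∀ D : Set ℂ, IsPreconnected D → z ∈ D → D ⊆ V → D ⊆ ball z s → D ⊆ V') ∧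
          len ρ V' ≤ (∫⁻ w in frontier V ∩ S, ρ w ∂(μH[1] : Measure ℂ)) + C) ∧
        ((∀ y ∈ V, ∃ b ∈ frontier V, dist y b < η) →
          ∃ V' : Set ℂ, Wn P V' ∧ z ∈ V' ∧ V' ⊆ V ∧ frontier V' ⊆ A ∧
            (∀ D : Set ℂ, IsPreconnected D → z ∈ D → D ⊆ V → D ⊆ ball z s → D ⊆ V') ∧
            len ρ V' ≤ ∫⁻ w in frontier V ∩ S, ρ w ∂(μH[1] : Measure ℂ)) := by
  classical
  rcases Y.eq_empty_or_nonempty with hLe | hLn
  · exact ⟨0, 1, 1, by simp, one_pos, one_pos, fun z hz => by simp [hLe] at hz⟩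
  have h1 : ∀ c : Y, ∃ (A Q : Set ℂ) (d : ℝ), Φ A ∧ IsOpen A ∧ Full A ∧ A ⊆ G ∧ (c : ℂ) ∈ Q ∧
      Col P Q d ∧ (∀ w, infDist w Q ≤ 3 * d → w ∈ A) := by
    intro c
    obtain ⟨A, Q, hΦ, hA1, hA2, hA3, hQ1, hQ2, hQ3, hQ4, hQ5⟩ := hch c c.2
    obtain ⟨d, hd1, hd2⟩ := col_in hA1 hQ2 hQ3 ⟨_, hQ1⟩ hQ4 hQ5
    exact ⟨A, Q, d, hΦ, hA1, hA2, hA3, hQ1, hd1, hd2⟩
  choose A Q d hΦ hA1 hA2 hA3 hcQ hC hAQ using h1
  have hNQ : ∀ (c : Y) (w : ℂ), infDist w (Q c) ≤ 3 * d c → w ∈ G := fun c w hw => hA3 c (hAQ c w hw)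
  have hpl := fun c : Y => rcut_plain2 (hC c) hM (hNQ c) (hA2 c) (hAQ c)
  have hga := fun c : Y => rcut_gain2 (hC c) hM (hNQ c) (hA2 c) (hAQ c)
  choose Cc hCtop hpl using hpl
  choose ηc hη0 hga using hga
  have hmin : ∀ (g : Y → ℝ), (∀ c, 0 < g c) → ∀ t : Finset Y, ∃ m : ℝ, 0 < m ∧ ∀ c ∈ t, m ≤ g c := by
    intro g hg t
    induction t using Finset.induction_on with
    | empty => exact ⟨1, one_pos, fun c hc => absurd hc (Finset.notMem_empty c)⟩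
    | insert a s _ ih =>
      obtain ⟨m, hm, hmc⟩ := ih
      refine ⟨min m (g a), lt_min hm (hg a), fun c hc => ?_⟩
      rcases Finset.mem_insert.1 hc with h | h
      · rw [h]
        exact min_le_right _ _
      · exact (min_le_left _ _).trans (hmc c h)
  obtain ⟨t, ht⟩ := hY.elim_nhds_subcover' (fun x hx => {w | infDist w (Q ⟨x, hx⟩) < d ⟨x, hx⟩ / 2}) (by
    intro x hx
    have hop : IsOpen {w | infDist w (Q ⟨x, hx⟩) < d ⟨x, hx⟩ / 2} :=
      isOpen_lt (continuous_infDist_pt _) continuous_const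
    refine hop.mem_nhds ?_
    show infDist x (Q ⟨x, hx⟩) < d ⟨x, hx⟩ / 2
    rw [infDist_zero_of_mem (hcQ ⟨x, hx⟩)]
    exact half_pos (hC ⟨x, hx⟩).d0)
  obtain ⟨η, hη, hηc⟩ := hmin ηc hη0 t
  obtain ⟨s, hs, hsc⟩ := hmin (fun c => d c / 2) (fun c => half_pos (hC c).d0) t
  refine ⟨∑ c ∈ t, Cc c, η, s, ENNReal.sum_ne_top.2 fun c _ => hCtop c, hη, hs, fun z hz => ?_⟩
  obtain ⟨c, hct, hzc⟩ := mem_iUnion₂.1 (ht hz)
  have hzc' : infDist z (Q c) < d c / 2 := hzc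
  have hd := (hC c).d0
  have hzd : infDist z (Q c) < d c := by linarith
  have hbs : ∀ w ∈ ball z s, infDist w (Q c) < d c := by
    intro w hw
    have h2 := infDist_le_infDist_add_dist (s := Q c) (x := w) (y := z)
    have h3 := mem_ball.1 hw
    have h4 := hsc c hct
    linarith
  have hSA : {w | infDist w (Q c) ≤ 2 * d c} ⊆ A c := fun w hw => hAQ c w (by
    have h2 : infDist w (Q c) ≤ 2 * d c := hw
    linarith)
  have hScl : IsClosed {w | infDist w (Q c) ≤ 2 * d c} :=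
    isClosed_le (continuous_infDist_pt _) continuous_const
  refine ⟨A c, {w | infDist w (Q c) ≤ 2 * d c}, hΦ c, hA1 c, hA2 c, hA3 c,
    isCompact_of_isClosed_isBounded hScl (col_vol (hC c) _).1, hSA,
    fun w hw => hAQ c w (by have := hbs w hw; linarith), ?_⟩
  intro V hV hVA hzV
  constructor
  · obtain ⟨V', h1, h2, h3, h4, h5, h7, h6⟩ := hpl c V z hV hzV hzd
    refine ⟨V', h1, h2, h3, h5, fun D hD hzD hDV hDs => h7 D hD hzD hDV fun w hw => hbs w (hDs hw),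
      h6.trans (add_le_add le_rfl ?_)⟩
    exact Finset.single_le_sum (f := Cc) (fun _ _ => zero_le) hct
  · intro hthin
    by_cases hcr : ∃ y ∈ V, 2 * d c ≤ infDist y (Q c)
    · obtain ⟨V', h1, h2, h3, h4, h5, h7, h6⟩ := hga c V z hV hzV hzd hcr (fun w hw => by
        obtain ⟨b, hb, hwb⟩ := hthin w hw
        exact ⟨b, hb, hwb.trans_le (hηc c hct)⟩)
      exact ⟨V', h1, h2, h3, h5, fun D hD hzD hDV hDs => h7 D hD hzD hDV fun w hw => hbs w (hDs hw), h6⟩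
    · push Not at hcr
      have hVS : closure V ⊆ {w | infDist w (Q c) ≤ 2 * d c} :=
        closure_minimal (fun w hw => (hcr w hw).le) hScl
      have hfS : frontier V ⊆ {w | infDist w (Q c) ≤ 2 * d c} := frontier_subset_closure.trans hVS
      refine ⟨V, ⟨hV.op, hV.co, ?_, ?_⟩, hzV, subset_rfl, hfS.trans hSA, fun D _ _ hDV _ => hDV, ?_⟩
      · intro O hO hOb hOf
        have h2 : O ⊆ A c := hA2 c O hO hOb (hOf.trans hVA)
        refine hV.fu O hO hOb ?_ hOf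
        rw [closure_eq_self_union_frontier]
        exact union_subset h2 (hOf.trans hVA)
      · rw [Set.disjoint_left]
        intro w hw hwP
        exact hV.fr w hw (hSA (hfS hw)) hwP
      · unfold len
        rw [inter_eq_left.2 hfS]

end Pool.Agent.H39.EMB
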