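import Pool.Agent.H39.EMB.EW
import Pool.Agent.H44.RC.LOGC
import Pool.Agent.H81.RW.Lgf

/-!
# Pull backs of simply connected domains off the critical values are univalent

`brn_pow`: `f = v + ψ ^ k` with `v ∈ M`, `ψ` injective. `brn_pt`: near a point `z0` with `deriv f z0 ≠ 0` or `f z0 ∈ M`.
-/

set_option autoImplicit false

open Filter Topology Metric Set

namespace Pool.Agent.H39.EMB

open Pool.Agent.H56.TH Pool.Agent.H39.HO

theorem brn_inj {f : ℂ → ℂ} {M A : Set ℂ} (h : InjOn f A) : Brn f M A :=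
  fun _ _ _ _ _ _ _ _ hVA _ => h.mono hVA

theorem brn_pow {f ψ : ℂ → ℂ} {M A : Set ℂ} {v : ℂ} {k : ℕ} (hk : 0 < k) (hv : v ∈ M) (hf : ContinuousOn f A)
    (hψ : ContinuousOn ψ A) (hi : InjOn ψ A) (h : ∀ w ∈ A, f w - v = ψ w ^ k) : Brn f M A := by
  intro W V hW hWp hWb hWf hWM hV hVA hVW
  have hvW : v ∉ W := fun h1 => Set.disjoint_left.1 hWM h1 hv
  obtain ⟨l, hl, hle⟩ := Pool.Agent.H81.RW.log_full hW hWp hWf hvW
  have himg : f '' V ⊆ W := by
    rintro _ ⟨w, hw, rfl⟩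
    exact hVW w hw
  have h1 := Pool.Agent.H44.RC.log_root hV hk (hψ.mono hVA) (hf.mono hVA) (a := v) (fun x hx => h x (hVA hx))
    ⟨l, hl.continuousOn.mono himg, fun w hw => hle w (himg hw)⟩
  intro x hx y hy hxy
  exact hi (hVA hx) (hVA hy) (h1 x hx y hy hxy)

private theorem loc_root {u : ℂ → ℂ} {z0 : ℂ} (hu : AnalyticAt ℂ u z0) (hu0 : u z0 ≠ 0) {n : ℕ}
    (hn : 0 < n) : ∃ ψ : ℂ → ℂ, AnalyticAt ℂ ψ z0 ∧ ψ z0 = 0 ∧ deriv ψ z0 ≠ 0 ∧
      ∀ᶠ z in 𝓝 z0, ψ z ^ n = (z - z0) ^ n * u z := by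
  obtain ⟨a, ha⟩ := IsAlgClosed.exists_pow_nat_eq (u z0) hn
  have ha0 : a ≠ 0 := by
    intro h
    rw [h, zero_pow hn.ne'] at ha
    exact hu0 ha.symm
  have hn0 : (n : ℂ) ≠ 0 := by exact_mod_cast hn.ne'
  set w : ℂ → ℂ := fun z => a * Complex.exp (Complex.log (u z / u z0) / n) with hw
  have hwa : AnalyticAt ℂ w z0 := by
    have h1 : AnalyticAt ℂ (fun z => u z / u z0) z0 := hu.div analyticAt_const hu0
    have h2 : AnalyticAt ℂ (fun z => Complex.log (u z / u z0)) z0 := by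
      refine h1.clog ?_
      rw [div_self hu0]
      exact Complex.one_mem_slitPlane
    have h3 : AnalyticAt ℂ (fun z => Complex.log (u z / u z0) / n) z0 :=
      h2.div analyticAt_const hn0
    exact analyticAt_const.mul h3.cexp'
  have hw0 : w z0 = a := by
    simp only [hw]
    rw [div_self hu0, Complex.log_one, zero_div, Complex.exp_zero, mul_one]
  refine ⟨fun z => (z - z0) * w z, (analyticAt_id.sub analyticAt_const).mul hwa, ?_, ?_, ?_⟩
  · simp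
  · have h1 : HasDerivAt (fun z : ℂ => z - z0) 1 z0 := (hasDerivAt_id z0).sub_const z0
    have h2 := h1.mul hwa.differentiableAt.hasDerivAt
    have h3 : deriv (fun z => (z - z0) * w z) z0 = a := by
      have h4 : HasDerivAt (fun z => (z - z0) * w z) (1 * w z0 + (z0 - z0) * deriv w z0) z0 := h2
      rw [h4.deriv, hw0]
      ring
    rw [h3]
    exact ha0
  · filter_upwards [hu.continuousAt.eventually_ne hu0] with z hz
    have h1 : Complex.exp (Complex.log (u z / u z0) / n) ^ n = u z / u z0 := by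
      rw [← Complex.exp_nat_mul, mul_div_cancel₀ _ hn0, Complex.exp_log (div_ne_zero hz hu0)]
    simp only [hw]
    rw [mul_pow, mul_pow, h1, ha]
    field_simp

private theorem psi_inj {ψ : ℂ → ℂ} {z0 : ℂ} (h : AnalyticAt ℂ ψ z0) (hd : deriv ψ z0 ≠ 0) :
    ∃ r : ℝ, 0 < r ∧ ∀ z ∈ ball z0 r, ∀ w ∈ ball z0 r, ψ z = ψ w → z = w := by
  have h1 : HasStrictDerivAt ψ (deriv ψ z0) z0 := h.hasStrictDerivAt
  have hpos : 0 < ‖deriv ψ z0‖ / 2 := by
    have := norm_pos_iff.2 hd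
    positivity
  have h2 := (hasStrictDerivAt_iff_hasStrictFDerivAt.1 h1).isLittleO.def hpos
  rw [nhds_prod_eq] at h2
  obtain ⟨p, hp, q, hq, hpq⟩ := eventually_prod_iff.1 h2
  obtain ⟨r1, hr1, h3⟩ := Metric.eventually_nhds_iff_ball.1 hp
  obtain ⟨r2, hr2, h4⟩ := Metric.eventually_nhds_iff_ball.1 hq
  refine ⟨min r1 r2, lt_min hr1 hr2, fun z hz w hw hzw => ?_⟩
  have h5 := hpq (h3 z (ball_subset_ball (min_le_left _ _) hz))
    (h4 w (ball_subset_ball (min_le_right _ _) hw))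
  simp only [hzw, sub_self, zero_sub, norm_neg] at h5
  by_contra hne
  have h6 : 0 < ‖z - w‖ := norm_pos_iff.2 (sub_ne_zero.2 hne)
  have h7 : ‖(ContinuousLinearMap.toSpanSingleton ℂ (deriv ψ z0)) (z - w)‖ =
      ‖z - w‖ * ‖deriv ψ z0‖ := by
    rw [ContinuousLinearMap.toSpanSingleton_apply, norm_smul]
  rw [h7] at h5
  nlinarith [norm_pos_iff.2 hd]

theorem loc_pow {f : ℂ → ℂ} {z0 : ℂ} (hf : AnalyticAt ℂ f z0) (hne : ¬ ∀ᶠ z in 𝓝 z0, f z - f z0 = 0) :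
    ∃ (k : ℕ) (ψ : ℂ → ℂ), 0 < k ∧ AnalyticAt ℂ ψ z0 ∧ deriv ψ z0 ≠ 0 ∧ ∀ᶠ z in 𝓝 z0, f z - f z0 = ψ z ^ k := by
  have hf1 : AnalyticAt ℂ (fun z => f z - f z0) z0 := hf.sub analyticAt_const
  obtain ⟨n, u, hu, hu0, he⟩ := hf1.exists_eventuallyEq_pow_smul_nonzero_iff.2 hne
  have hn : 0 < n := by
    rcases Nat.eq_zero_or_pos n with h0 | h0
    · exfalso
      subst h0
      have h1 := he.self_of_nhds
      rw [sub_self, pow_zero, one_smul] at h1
      exact hu0 h1.symm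
    · exact h0
  obtain ⟨ψ, h1, -, h3, h4⟩ := loc_root hu hu0 hn
  refine ⟨n, ψ, hn, h1, h3, ?_⟩
  filter_upwards [he, h4] with z e2 e3
  rw [e2, e3, smul_eq_mul]

theorem brn_pt {f : ℂ → ℂ} {U M : Set ℂ} (hU : IsOpen U) (hf : DifferentiableOn ℂ f U)
    (hom : ∀ O ⊆ U, IsOpen O → IsOpen (f '' O)) {z0 : ℂ} (hz : z0 ∈ U) (hcr : deriv f z0 ≠ 0 ∨ f z0 ∈ M) {N : Set ℂ}
    (hN : N ∈ 𝓝 z0) : ∃ r : ℝ, 0 < r ∧ ball z0 r ⊆ N ∧ Brn f M (ball z0 r) := by
  have hfa : AnalyticAt ℂ f z0 := hf.analyticAt (hU.mem_nhds hz)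
  rcases hcr with hd | hv
  · obtain ⟨r1, hr1, hi⟩ := psi_inj hfa hd
    obtain ⟨r2, hr2, hN2⟩ := Metric.mem_nhds_iff.1 hN
    refine ⟨min r1 r2, lt_min hr1 hr2, (ball_subset_ball (min_le_right _ _)).trans hN2, brn_inj ?_⟩
    intro x hx y hy hxy
    exact hi x (ball_subset_ball (min_le_left _ _) hx) y (ball_subset_ball (min_le_left _ _) hy) hxy
  · have hne : ¬ ∀ᶠ z in 𝓝 z0, f z - f z0 = 0 := by
      intro h1
      obtain ⟨r, hr, hb⟩ := Metric.eventually_nhds_iff_ball.1 (h1.and (hU.mem_nhds hz))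
      have h2 : IsOpen (f '' ball z0 r) := hom _ (fun w hw => (hb w hw).2) isOpen_ball
      have h3 : f '' ball z0 r = {f z0} := by
        ext y
        constructor
        · rintro ⟨w, hw, rfl⟩
          exact sub_eq_zero.1 (hb w hw).1
        · rintro h4
          rw [mem_singleton_iff.1 h4]
          exact ⟨z0, mem_ball_self hr, rfl⟩
      rw [h3] at h2
      exact not_isOpen_singleton (f z0) h2
    obtain ⟨k, ψ, hk, hψ, hψd, he⟩ := loc_pow hfa hne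
    obtain ⟨r1, hr1, hi⟩ := psi_inj hψ hψd
    obtain ⟨r2, hr2, hb⟩ := Metric.eventually_nhds_iff_ball.1
      ((he.and hψ.eventually_continuousAt).and (hU.mem_nhds hz))
    obtain ⟨r3, hr3, hN3⟩ := Metric.mem_nhds_iff.1 hN
    obtain ⟨r, hr⟩ : ∃ r, r = min (min r1 r2) r3 := ⟨_, rfl⟩
    have e1 : r ≤ r1 := hr ▸ (min_le_left _ _).trans (min_le_left _ _)
    have e2 : r ≤ r2 := hr ▸ (min_le_left _ _).trans (min_le_right _ _)
    have e3 : r ≤ r3 := hr ▸ min_le_right _ _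
    refine ⟨r, hr ▸ lt_min (lt_min hr1 hr2) hr3, (ball_subset_ball e3).trans hN3, ?_⟩
    refine brn_pow hk hv (hf.continuousOn.mono fun w hw => (hb w (ball_subset_ball e2 hw)).2)
      (fun w hw => (hb w (ball_subset_ball e2 hw)).1.2.continuousWithinAt) ?_
      fun w hw => (hb w (ball_subset_ball e2 hw)).1.1
    intro x hx y hy hxy
    exact hi x (ball_subset_ball e1 hx) y (ball_subset_ball e1 hy) hxy

end Pool.Agent.H39.EMB
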