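import Pool.Agent.H39.EMB.CH
import Pool.Agent.H39.EMB.RT

/-!
# Pull backs along orbits which leave a neighbourhood of an invariant set, in the planar settings

`em_fr`: in a frame; `em_ps`: Julia set with a point off `X`; `em_ss`: Julia set = sphere.
-/

set_option autoImplicit false

open Filter Topology Metric Set MeasureTheory
open scoped MeasureTheory

namespace Pool.Agent.H39.EMB

open Pool.Agent.H56.TH Pool.Agent.H56.UD Pool.Agent.H78.UX Pool.Agent.H39.HO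

variable {f : ℂ → ℂ} {U J P Cr X M : Set ℂ} {δ : ℝ} {η : ℂ → ℂ → ℂ} {ρ : ℝ}

theorem em_fr (h : FR f U J P δ) (hom : ∀ O ⊆ U, IsOpen O → IsOpen (f '' O))
    (htd : ∀ z ∈ P, connectedComponentIn P z = {z}) (hX : IsCompact X) (hZ : IsCompact (P \ X)) (hXP : X ⊆ P)
    (hMc : IsClosed M) (hMX : M ⊆ X) (hMf : ∀ z ∈ M, f z ∈ M) (hcr : ∀ z ∈ X, deriv f z ≠ 0 ∨ f z ∈ M)
    {W₀ : Set ℂ} (hW₀ : IsOpen W₀) (hXW : X ⊆ W₀)
    (hesc : ∀ N : Set ℂ, IsOpen N → Bornology.IsBounded N → N ⊆ U → N ⊆ thickening δ J → N ⊆ W₀ →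
      ∀ O : Set ℂ, IsOpen O → O.Nonempty → ∃ j : ℕ, ∃ w ∈ O, f^[j] w ∉ N) :
    ∃ (N G : Set ℂ) (ρ' : ℂ → ENNReal), EW f P X M N G ρ' ∧ N ⊆ U := by
  have hPc : IsCompact P := h.Pc
  obtain ⟨R, hR⟩ := hPc.isBounded.subset_ball (0 : ℂ)
  obtain ⟨G, hG⟩ : ∃ G, G = thickening δ J ∩ ball (0 : ℂ) R := ⟨_, rfl⟩
  have hGo : IsOpen G := hG ▸ isOpen_thickening.inter isOpen_ball
  have hGb : Bornology.IsBounded G := hG ▸ isBounded_ball.subset inter_subset_right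
  obtain ⟨N, hN⟩ : ∃ N, N = (U ∩ f ⁻¹' (thickening δ J)) ∩ (G ∩ W₀) := ⟨_, rfl⟩
  have hNo : IsOpen N := hN ▸ (h.fd.continuousOn.isOpen_inter_preimage h.Uo isOpen_thickening).inter (hGo.inter hW₀)
  have hNU : N ⊆ U := by
    rw [hN]
    exact inter_subset_left.trans inter_subset_left
  have hNf : ∀ w ∈ N, f w ∈ thickening δ J := by
    intro w hw
    rw [hN] at hw
    exact hw.1.2
  have hNG : N ⊆ G := by
    rw [hN]
    exact inter_subset_right.trans inter_subset_left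
  have hNW : N ⊆ W₀ := by
    rw [hN]
    exact inter_subset_right.trans inter_subset_right
  have hGJ : G ⊆ thickening δ J := by
    rw [hG]
    exact inter_subset_left
  have hPG : P ⊆ G := by
    intro w hw
    rw [hG]
    exact ⟨self_subset_thickening h.hδ J (h.PJ hw), hR hw⟩
  have hXN : X ⊆ N := by
    intro w hw
    have hwP := hXP hw
    rw [hN]
    exact ⟨⟨h.PU hwP, self_subset_thickening h.hδ J (h.PJ (h.Pf w hwP))⟩, hPG hwP, hXW hw⟩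
  refine ⟨N, G, rh f U J P δ,
    { No := hNo
      Go := hGo
      Gb := hGb
      NG := hNG
      PG := hPG
      Pc := hPc
      Xc := hX
      Zc := hZ
      XP := hXP
      Mc := hMc
      MX := hMX
      Mf := hMf
      Pf := h.Pf
      fd := h.fd.mono hNU
      om := fun O hO hOo => hom O (hO.trans hNU) hOo
      col := ?_
      ch := ?_
      met :=
        { lo := fun w hw => rh_lo (hGJ hw)
          up := fun w d hd hw hwP => rh_up h hd (hw.trans hGJ) hwP }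
      ct := fun w hw hd => rh_ct h (hNU hw) (hNf w hw) hd
      esc := hesc N hNo (hGb.subset hNG) hNU (hNG.trans hGJ) hNW }, hNU⟩
  · intro z hz κ hκ
    obtain ⟨Q, hQ1, hQ2, hQ3, hQ4, hQ5⟩ := col_nhd hPc hz (isOpen_ball (x := z) (ε := κ)) (by
      rw [htd z hz]
      exact singleton_subset_iff.2 (mem_ball_self hκ))
    exact ⟨Q, hQ1, hQ2, hQ3, hQ4, hQ5⟩
  · intro z hz
    exact brn_pt h.Uo h.fd hom (hNU (hXN hz)) (hcr z hz) (hNo.mem_nhds (hXN hz))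

/-- the planar setting -/
theorem em_ps (h : PS f U J P Cr δ η ρ)
    (hesc : ∀ z ∈ thickening δ J, z ∉ J → ∃ k : ℕ, z ∉ dm f U J δ k)
    (hom : ∀ O ⊆ U, IsOpen O → IsOpen (f '' O))
    (htd : ∀ z ∈ P, connectedComponentIn P z = {z}) (hX : IsCompact X) (hZ : IsCompact (P \ X)) (hXP : X ⊆ P)
    (hMc : IsClosed M) (hMX : M ⊆ X) (hMf : ∀ z ∈ M, f z ∈ M) (hcr : ∀ z ∈ X, deriv f z ≠ 0 ∨ f z ∈ M)
    {c : ℂ} (hc : c ∈ J) (hcX : c ∉ X) :
    ∃ (N G : Set ℂ) (ρ' : ℂ → ENNReal), EW f P X M N G ρ' ∧ N ⊆ U := by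
  refine em_fr (fr_ps h) hom htd hX hZ hXP hMc hMX hMf hcr (W₀ := {c}ᶜ) isOpen_compl_singleton
    (fun z hz hzc => hcX (by rw [mem_singleton_iff] at hzc; rwa [hzc] at hz)) ?_
  intro N hN hNb hNU hNJ hNc O hO hOn
  by_contra hcon
  push Not at hcon
  by_cases hOJ : (O ∩ J).Nonempty
  · obtain ⟨m, hm⟩ := h.leo O hO hOJ
    obtain ⟨w, hw, hwc⟩ := hm m le_rfl hc
    have h1 := hNc (hcon m w hw.1)
    rw [hwc] at h1
    exact h1 rfl
  · obtain ⟨x, hx⟩ := hOn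
    have hxJ : x ∉ J := fun hxJ => hOJ ⟨x, hx, hxJ⟩
    obtain ⟨k, hk⟩ := hesc x (hNJ (hcon 0 x hx)) hxJ
    exact hk ⟨fun j _ => hNU (hcon j x hx), hNJ (hcon k x hx)⟩

/-- Julia set = sphere -/
theorem em_ss (h : SS f U P Cr δ η ρ)
    (hom : ∀ O ⊆ U, IsOpen O → IsOpen (f '' O))
    (htd : ∀ z ∈ P, connectedComponentIn P z = {z}) (hX : IsCompact X) (hZ : IsCompact (P \ X)) (hXP : X ⊆ P)
    (hMc : IsClosed M) (hMX : M ⊆ X) (hMf : ∀ z ∈ M, f z ∈ M) (hcr : ∀ z ∈ X, deriv f z ≠ 0 ∨ f z ∈ M) :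
    ∃ (N G : Set ℂ) (ρ' : ℂ → ENNReal), EW f P X M N G ρ' ∧ N ⊆ U := by
  refine em_fr (fr_ss h) hom htd hX hZ hXP hMc hMX hMf hcr (W₀ := univ) isOpen_univ (fun _ _ => mem_univ _) ?_
  intro N hN hNb hNU hNJ hNc O hO hOn
  obtain ⟨R0, hR0⟩ := hNb.exists_norm_le
  obtain ⟨R, hR⟩ : ∃ R, R = max R0 0 := ⟨_, rfl⟩
  have hRn : 0 ≤ R := hR ▸ le_max_right _ _
  obtain ⟨m, hm⟩ := h.leo O hO hOn (R + 2)
  have h1 : ((R + 1 : ℝ) : ℂ) ∈ ball (0 : ℂ) (R + 2) := by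
    rw [mem_ball_zero_iff, Complex.norm_real, Real.norm_of_nonneg (by positivity)]
    linarith
  obtain ⟨w, hw, hwe⟩ := hm m le_rfl h1
  refine ⟨m, w, hw.1, fun hcon => ?_⟩
  rw [hwe] at hcon
  have h2 := hR0 _ hcon
  rw [Complex.norm_real, Real.norm_of_nonneg (by positivity)] at h2
  have h3 : R0 ≤ R := hR ▸ le_max_left _ _
  linarith

end Pool.Agent.H39.EMB
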