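import Pool.Agent.H39.EMB.EW

/-!
# Pull backs along orbits which leave a neighbourhood of an invariant set: one step

`St`: a window `V` around `z` with closure in a simply connected `W` which stays `i` steps in `N`. `rpull2`: the pull
back of such a pair, before the cut.
-/

set_option autoImplicit false

open Filter Topology Metric Set MeasureTheory
open scoped MeasureTheory

namespace Pool.Agent.H39.EMB

open Pool.Agent.H56.TH Pool.Agent.H39.HO

variable {f : ℂ → ℂ} {P X M N G : Set ℂ} {ρ : ℂ → ENNReal}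

/-- a window `V` around `z` with closure in a simply connected `W` which stays `i` steps in `N` -/
structure St (f : ℂ → ℂ) (P M N G : Set ℂ) (ρ : ℂ → ENNReal) (i : ℕ) (Λ : ENNReal) (z : ℂ) (V W : Set ℂ) : Prop where
  Wo : IsOpen W
  Wp : IsPreconnected W
  Wf : Full W
  WG : W ⊆ G
  WM : Disjoint W M
  stay : ∀ j < i, ∀ w ∈ W, f^[j] w ∈ N
  wn : Wn P V
  zV : z ∈ V
  VW : closure V ⊆ W
  len : len ρ V ≤ Λ

theorem rpull2 (hH : EW f P X M N G ρ) {z : ℂ} {A S : Set ℂ} (hA : IsOpen A) (hAf : Full A) (hAN : A ⊆ N)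
    (hbr : Brn f M A) (hzA : z ∈ A) (hzP : z ∈ P) (hSc : IsCompact S) (hSA : S ⊆ A) {i : ℕ} {Λ : ENNReal}
    {V₀ W₀ : Set ℂ} (h₀ : St f P M N G ρ i Λ (f z) V₀ W₀) :
    ∃ V W : Set ℂ, RW P A V ∧ V ⊆ A ∧ z ∈ V ∧ (∀ w ∈ V, f w ∈ V₀) ∧
      (∫⁻ w in frontier V ∩ S, ρ w ∂(μH[1] : Measure ℂ) ≤ len ρ V₀) ∧
      IsOpen W ∧ IsPreconnected W ∧ Full W ∧ W ⊆ A ∧ Disjoint W M ∧ (∀ w ∈ W, f w ∈ W₀) ∧ InjOn f W ∧
      (∀ w ∈ closure V, w ∈ A → w ∈ W) ∧
      (∀ D : Set ℂ, IsPreconnected D → z ∈ D → D ⊆ A → (∀ w ∈ D, f w ∈ V₀) → D ⊆ V) := by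
  have hfA : DifferentiableOn ℂ f A := hH.fd.mono hAN
  have hAb : Bornology.IsBounded A := hH.Gb.subset (hAN.trans hH.NG)
  have hV₀W₀ : V₀ ⊆ W₀ := subset_closure.trans h₀.VW
  -- the big component
  obtain ⟨B, hB⟩ : ∃ B, B = A ∩ f ⁻¹' W₀ := ⟨_, rfl⟩
  have hBo : IsOpen B := hB ▸ hfA.continuousOn.isOpen_inter_preimage hA h₀.Wo
  obtain ⟨W, hW⟩ : ∃ W, W = connectedComponentIn B z := ⟨_, rfl⟩
  have hWo : IsOpen W := hW ▸ hBo.connectedComponentIn
  have hWB : W ⊆ B := hW ▸ connectedComponentIn_subset B z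
  have hzB : z ∈ B := hB ▸ ⟨hzA, hV₀W₀ h₀.zV⟩
  have hBA : B ⊆ A := hB ▸ inter_subset_left
  have hWA : W ⊆ A := hWB.trans hBA
  have hWp : IsPreconnected W := hW ▸ isPreconnected_connectedComponentIn
  have hWf : ∀ w ∈ W, f w ∈ W₀ := by
    intro w hw
    have h1 := hWB hw
    rw [hB] at h1
    exact h1.2
  have hWi : InjOn f W := hbr W₀ W h₀.Wo h₀.Wp (hH.Gb.subset h₀.WG) h₀.Wf h₀.WM hWp hWA hWf
  have hWF : Full W := by
    intro O hO hOb hOf
    have hOA : O ⊆ A := hAf O hO hOb (hOf.trans hWA)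
    have hcA : closure O ⊆ A := by
      rw [closure_eq_self_union_frontier]
      exact union_subset hOA (hOf.trans hWA)
    have h1 : f '' O ⊆ W₀ := by
      have hcl : IsCompact (closure O) := hOb.isCompact_closure
      have h2 : closure (f '' O) ⊆ f '' closure O :=
        closure_minimal (image_mono subset_closure) (hcl.image_of_continuousOn (hfA.continuousOn.mono hcA)).isClosed
      have h3 : IsOpen (f '' O) := hH.om O (hOA.trans hAN) hO
      refine h₀.Wf (f '' O) h3 ?_ ?_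
      · exact (hcl.image_of_continuousOn (hfA.continuousOn.mono hcA)).isBounded.subset (image_mono subset_closure)
      · intro u hu
        rw [frontier, h3.interior_eq] at hu
        obtain ⟨y, hy, rfl⟩ := h2 hu.1
        have h4 : y ∈ frontier O := by
          rw [frontier, hO.interior_eq]
          exact ⟨hy, fun hyO => hu.2 (mem_image_of_mem f hyO)⟩
        exact hWf y (hOf h4)
    have h2 : O ⊆ B := by
      intro o ho
      rw [hB]
      exact ⟨hOA ho, h1 (mem_image_of_mem f ho)⟩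
    rw [hW] at hOf ⊢
    exact comp_sub hO hOb h2 hOf
  have hWM : Disjoint W M := by
    rw [Set.disjoint_left]
    intro w hw hwM
    exact Set.disjoint_left.1 h₀.WM (hWf w hw) (hH.Mf w hwM)
  -- the small component
  obtain ⟨B', hB'⟩ : ∃ B', B' = A ∩ f ⁻¹' V₀ := ⟨_, rfl⟩
  have hB'o : IsOpen B' := hB' ▸ hfA.continuousOn.isOpen_inter_preimage hA h₀.wn.op
  obtain ⟨V, hV⟩ : ∃ V, V = connectedComponentIn B' z := ⟨_, rfl⟩
  have hVo : IsOpen V := hV ▸ hB'o.connectedComponentIn
  have hVB : V ⊆ B' := hV ▸ connectedComponentIn_subset B' z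
  have hzB' : z ∈ B' := hB' ▸ ⟨hzA, h₀.zV⟩
  have hB'A : B' ⊆ A := hB' ▸ inter_subset_left
  have hVA : V ⊆ A := hVB.trans hB'A
  have hzV : z ∈ V := hV ▸ mem_connectedComponentIn hzB'
  have hVp : IsPreconnected V := hV ▸ isPreconnected_connectedComponentIn
  have hVf : ∀ w ∈ V, f w ∈ V₀ := by
    intro w hw
    have h1 := hVB hw
    rw [hB'] at h1
    exact h1.2
  have hVW : V ⊆ W := by
    rw [hW]
    refine hVp.subset_connectedComponentIn hzV fun w hw => ?_
    rw [hB]
    exact ⟨hVA hw, hV₀W₀ (hVf w hw)⟩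
  have hclV : ∀ w ∈ closure V, w ∈ A → f w ∈ closure V₀ := by
    intro w h1 hwA
    have h2 : ContinuousAt f w := (hfA.differentiableAt (hA.mem_nhds hwA)).continuousAt
    refine closure_mono ?_ (h2.continuousWithinAt.mem_closure_image h1)
    rintro _ ⟨y, hy, rfl⟩
    exact hVf y hy
  have hclW : ∀ w ∈ closure V, w ∈ A → w ∈ W := by
    intro w h1 hwA
    by_contra hwW
    have h2 : w ∈ frontier W ∩ B := by
      refine ⟨?_, hB ▸ ⟨hwA, h₀.VW (hclV w h1 hwA)⟩⟩
      rw [frontier, hWo.interior_eq]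
      exact ⟨closure_mono hVW h1, hwW⟩
    have h3 := comp_fr hBo z
    rw [← hW] at h3
    rw [h3] at h2
    exact h2
  have hfr : ∀ w ∈ frontier V, w ∈ A → f w ∈ frontier V₀ := by
    intro w hw hwA
    rw [frontier, h₀.wn.op.interior_eq]
    refine ⟨hclV w (frontier_subset_closure hw) hwA, fun hwV => ?_⟩
    have h1 : w ∈ B' := hB' ▸ ⟨hwA, hwV⟩
    have h2 := comp_fr hB'o z
    rw [← hV] at h2
    have h3 : w ∈ frontier V ∩ B' := ⟨hw, h1⟩
    rw [h2] at h3
    exact h3
  have hfN : frontier V₀ ⊆ G := frontier_subset_closure.trans (h₀.VW.trans h₀.WG)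
  refine ⟨V, W, ⟨hVo, hVp, ?_, ?_⟩, hVA, hzV, hVf, ?_, hWo, hWp, hWF, hWA, hWM, hWf, hWi, hclW, ?_⟩
  · intro O hO hOb hOA hOf
    have hOA' : O ⊆ A := subset_closure.trans hOA
    have h1 : f '' O ⊆ V₀ := by
      have hcl : IsCompact (closure O) := hOb.isCompact_closure
      have h2 : closure (f '' O) ⊆ f '' closure O :=
        closure_minimal (image_mono subset_closure) (hcl.image_of_continuousOn (hfA.continuousOn.mono hOA)).isClosed
      have h3 : IsOpen (f '' O) := hH.om O (hOA'.trans hAN) hO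
      refine h₀.wn.fu (f '' O) h3 ?_ ?_
      · exact (hcl.image_of_continuousOn (hfA.continuousOn.mono hOA)).isBounded.subset (image_mono subset_closure)
      · intro u hu
        rw [frontier, h3.interior_eq] at hu
        obtain ⟨y, hy, rfl⟩ := h2 hu.1
        have h4 : y ∈ frontier O := by
          rw [frontier, hO.interior_eq]
          exact ⟨hy, fun hyO => hu.2 (mem_image_of_mem f hyO)⟩
        exact hVf y (hOf h4)
    have h2 : O ⊆ B' := by
      intro o ho
      rw [hB']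
      exact ⟨hOA' ho, h1 (mem_image_of_mem f ho)⟩
    rw [hV] at hOf ⊢
    exact comp_sub hO hOb h2 hOf
  · intro w hw hwA hwP
    exact Set.disjoint_left.1 h₀.wn.fr (hfr w hw hwA) (hH.Pf w hwP)
  · by_cases hlen : len ρ V₀ = ⊤
    · rw [hlen]
      exact le_top
    obtain ⟨T, hT⟩ : ∃ T, T = frontier V ∩ S := ⟨_, rfl⟩
    have hTA : T ⊆ A := hT ▸ inter_subset_right.trans hSA
    have hTW : T ⊆ W := by
      intro w hw
      refine hclW w ?_ (hTA hw)
      rw [hT] at hw
      exact frontier_subset_closure hw.1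
    have hTc : IsCompact T := hT ▸ hSc.inter_left isClosed_frontier
    have hfT : f '' T ⊆ frontier V₀ := by
      rintro _ ⟨w, hw, rfl⟩
      rw [hT] at hw
      exact hfr w hw.1 (hSA hw.2)
    have hfTc : IsCompact (f '' T) := hTc.image_of_continuousOn (hfA.continuousOn.mono hTA)
    -- finite measure
    have hfin : (μH[1] : Measure ℂ) (frontier V₀) < ⊤ := by
      obtain ⟨R, hR⟩ := hH.Gb.subset_closedBall (f z)
      obtain ⟨D, hD⟩ : ∃ D, D = max R 1 := ⟨_, rfl⟩
      have hD0 : 0 < D := hD ▸ lt_max_of_lt_right one_pos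
      have hRD : R ≤ D := hD ▸ le_max_left _ _
      have h1 : ∀ w ∈ frontier V₀, ENNReal.ofReal (1 / D) ≤ ρ w := by
        intro w hw
        refine le_trans (ENNReal.ofReal_le_ofReal ?_) (hH.met.lo w (hfN hw))
        have hwP : w ∉ P := fun hp => Set.disjoint_left.1 h₀.wn.fr hw hp
        have hfzP : f z ∈ P := hH.Pf z hzP
        have h0 : 0 < infDist w P := (hH.Pc.isClosed.notMem_iff_infDist_pos ⟨f z, hfzP⟩).1 hwP
        have h2 : infDist w P ≤ dist w (f z) := infDist_le_dist_of_mem hfzP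
        exact one_div_le_one_div_of_le h0 (h2.trans ((mem_closedBall.1 (hR (hfN hw))).trans hRD))
      have h2 : ENNReal.ofReal (1 / D) * (μH[1] : Measure ℂ) (frontier V₀) ≤ len ρ V₀ := by
        unfold len
        rw [← setLIntegral_const]
        exact setLIntegral_mono' isClosed_frontier.measurableSet h1
      have h3 : ENNReal.ofReal (1 / D) ≠ 0 := by
        simpa using hD0
      exact ENNReal.lt_top_of_mul_ne_top_right (h2.trans_lt (lt_top_iff_ne_top.2 hlen)).ne h3
    have hfW : DifferentiableOn ℂ f W := hfA.mono hWA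
    obtain ⟨g, hg⟩ : ∃ g, g = Function.invFunOn f W := ⟨_, rfl⟩
    have hgd : DifferentiableOn ℂ g (f '' W) := hg ▸ inj_hol hWo hfW hWi
    have hgm : ∀ u ∈ f '' W, g u ∈ W ∧ f (g u) = u := fun u hu => by
      rw [hg]
      exact ⟨Function.invFunOn_mem hu, Function.invFunOn_eq hu⟩
    have hgf : ∀ y ∈ W, g (f y) = y := by
      intro y hy
      obtain ⟨h1, h2⟩ := hgm (f y) (mem_image_of_mem f hy)
      exact hWi h1 hy h2
    have hfWo : IsOpen (f '' W) := inj_open hWo hfW hWi subset_rfl hWo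
    have himg : g '' (f '' T) = T := by
      ext w
      constructor
      · rintro ⟨_, ⟨y, hy, rfl⟩, rfl⟩
        rw [hgf y (hTW hy)]
        exact hy
      · intro hw
        exact ⟨f w, mem_image_of_mem f hw, hgf w (hTW hw)⟩
    have h1 := lint_image hfWo hgd hfTc (image_mono hTW) ((measure_mono hfT).trans_lt hfin) ρ
    rw [himg] at h1
    rw [← hT]
    refine h1.trans ?_
    refine le_trans ?_ (lintegral_mono_set hfT)
    refine setLIntegral_mono' hfTc.isClosed.measurableSet ?_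
    intro w hw
    have hwW : w ∈ f '' W := image_mono hTW hw
    obtain ⟨hgw, hfg⟩ := hgm w hwW
    have hder : deriv f (g w) ≠ 0 := inj_der hWo hfW hWi hgw
    have h2 := hH.ct (g w) (hAN (hWA hgw)) hder
    rw [hfg] at h2
    have hdf : HasDerivAt f (deriv f (g w)) (g w) :=
      (hfW.differentiableAt (hWo.mem_nhds hgw)).hasDerivAt
    have hdg : HasDerivAt g (deriv g w) w :=
      (hgd.differentiableAt (hfWo.mem_nhds hwW)).hasDerivAt
    have hcomp : HasDerivAt (f ∘ g) (deriv f (g w) * deriv g w) w := hdf.comp w hdg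
    have hid : HasDerivAt (f ∘ g) 1 w := by
      refine (hasDerivAt_id w).congr_of_eventuallyEq ?_
      filter_upwards [hfWo.mem_nhds hwW] with u hu
      exact (hgm u hu).2
    have hmul : deriv f (g w) * deriv g w = 1 := hcomp.unique hid
    calc ρ (g w) * ENNReal.ofReal ‖deriv g w‖
        ≤ ρ w * ENNReal.ofReal ‖deriv f (g w)‖ * ENNReal.ofReal ‖deriv g w‖ := by gcongr
      _ = ρ w := by
          rw [mul_assoc, ← ENNReal.ofReal_mul (norm_nonneg _), ← norm_mul, hmul, norm_one,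
            ENNReal.ofReal_one, mul_one]
  · intro D hD hzD hDA hDf
    rw [hV]
    refine hD.subset_connectedComponentIn hzD fun w hw => ?_
    rw [hB']
    exact ⟨hDA hw, hDf w hw⟩

end Pool.Agent.H39.EMB
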